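import Mathlib
import Pool.Agent.Helper18.PB.Defs

/-!
# Project SQ (MP_b9cb57_an): Lindenstrauss property B in dimension 2, the square-Dini criterion

THEOREM (`Final`). Let `dim Y = 2`. Suppose that almost every point `p` of the unit sphere is square-Dini flat
(`SqFlat`): there are a supporting functional `w` and numbers `a k` with `∑ (a k)^2 < ∞` and
`‖p + h‖ ≤ 1 + a k 4^(-k)` for `w h = 0`, `‖h‖ ≤ 2^(-k)`. Then `Y` has property B.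

PLAN. For a pair `(f, g)` of functionals and `s : ℝ` let `f_s = f + s g`. A state is `(f, g, x, m)` with `‖x‖ ≤ 1`, on the
interval `[m - h, m + h]`; its energy is `en = (‖f_(m+h)‖ + ‖f_(m-h)‖) / 2 - f_m x ≥ 0`, normalised: `2 en / h²`. `GStep`: one
can pass to the left, the middle or the right half of the interval, so that the new normalised energy
plus the displacement of `x` is at most `A 0`, `A 1`, `A 2`, where `A 0 / 4 + A 1 / 2 + A 2 / 4` is at most the old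
normalised energy (no loss!). `GSel`: so there is an infinite path with bounded energies and finite
total displacement, and moreover without long runs of left halves or right halves. `GLim`: the limit. `GSD`: the
functional `F` attains its norm at `z`, with a gap `F (y - z) ≤ - 2^(-q j) 4^(-j-1)` if `|G (y - z)|` is about
`2^(-j)`, for any prescribed `q` with `∑ 4^(-q j) < ∞`. `GFin`: this gives norm attaining operators into `Y`.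
-/

set_option autoImplicit false

open MeasureTheory Measure Finset

namespace Pool.Agent.Helper36.Sq

universe u v

/-- The unit sphere is square-Dini flat at `p`. -/
def SqFlat {Y : Type v} [NormedAddCommGroup Y] [NormedSpace ℝ Y] (p : Y) : Prop :=
  ∃ w : Y →L[ℝ] ℝ, ‖w‖ ≤ 1 ∧ w p = 1 ∧ ∃ a : ℕ → ℝ, Summable (fun k => a k ^ 2) ∧
    ∀ (k : ℕ) (h : Y), w h = 0 → ‖h‖ ≤ (1 / 2) ^ k → ‖p + h‖ ≤ 1 + a k * (1 / 4) ^ k

/-- A state. -/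
structure St (X : Type u) [NormedAddCommGroup X] [NormedSpace ℝ X] where
  f : X →L[ℝ] ℝ
  g : X →L[ℝ] ℝ
  x : X
  m : ℝ

/-- The energy of a state on the interval `[m - h, m + h]`. -/
noncomputable def en {X : Type u} [NormedAddCommGroup X] [NormedSpace ℝ X] (S : St X) (h : ℝ) : ℝ :=
  (‖S.f + (S.m + h) • S.g‖ + ‖S.f + (S.m - h) • S.g‖) / 2 - (S.f + S.m • S.g) S.x

/-- PACKET STEP (the lossless step).

PROOF. Let `N₊ = ‖f_(m+h)‖`, `N₋ = ‖f_(m-h)‖`, `Lc t = (N₊ + N₋) / 2 + t (N₊ - N₋) / 2` (the chord at `m + t h`), and for `t ∈ {-1/2, 0, 1/2}`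
`G t = inf over ‖u‖ ≤ 1 of Lc t - f_(m + t h) u + r t ‖u - x‖`, `r t = h² (1 - t²) / 2` (so `r 0 = h²/2`, `r (±1/2) = 3 h²/8`); put `G (±1) = 0`, `r (±1) = 0`. (The set is
nonempty, `x` is in it, and bounded below by `0`, since `f_(m + t h) u ≤ ‖f_(m + t h)‖ ≤ Lc t`.) So `0 ≤ G t`, and `G 0 ≤ en` (take `u = x`). With
`8 / h²` times `G(-1/2) - G(0)/2`, `G(0) - (G(-1/2) + G(1/2))/2`, `G(1/2) - G(0)/2` as `A 0, A 1, A 2` the first claim is `2 G(0) / h² ≤ 2 en / h²`.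
Now fix a child with centre `t ∈ {-1/2, 0, 1/2}` and ends `t ± 1/2`. Choose `u` in the ball with `Lc t - f_(m+th) u + r t ‖u - x‖ ≤ G t + η`. For each end `t' = t ± 1/2` put `v' = Lc t' - G t'`. For all `y` in the ball
`f_(m+t'h) y ≤ v' + r t' ‖y - x‖` (definition of `G t'`; if `t' = ±1` it says `f y ≤ N±`). By the lemma `Pool.Agent.Helper18.PB2.sandwich` (file `Pool/Agent/Helper18/PB2/Stage.lean`) with `x' = x`, `L = f_(m+t'h)`, `ε = v' + η - L x > 0` there is `φ'` with `‖φ'‖ ≤ r t' ≤ h²/2` and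
`(L - φ') (y - x) ≤ v' + η - L x` on the ball, i.e. `‖L - φ'‖ ≤ v' + η - φ' x` (`ContinuousLinearMap.opNorm_le_of_unit_norm`-like, the ball is symmetric). Let `φ₊, φ₋` be the two functionals. New state: `x' = u`, `m' = m + t h`,
`g' = g - (1/h) (φ₊ - φ₋)`, `f' = f - (1/2) (φ₊ + φ₋) + (m'/h) (φ₊ - φ₋)`; then `f'_(m' ± h/2) = f_(m' ± h/2) - φ±`, `f'_(m') = f_(m') - (φ₊ + φ₋)/2`, `‖g' - g‖ ≤ (1/h) (h²/2 + h²/2) = h`, and the last bound `≤ h²/2`. Energy: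
`en' ≤ (v₊ + v₋)/2 + η - (φ₊ + φ₋)(x)/2 - f_(m') u + (φ₊ + φ₋)(u)/2 ≤ (v₊ + v₋)/2 + η - f_(m') u + (r₊ + r₋)/2 ‖u - x‖`, with
`(v₊ + v₋)/2 = Lc t - (G₊ + G₋)/2` and `Lc t - f_(m') u ≤ G t + η - r t ‖u - x‖`: so `en' ≤ G t - (G₊ + G₋)/2 + 2 η - (r t - (r₊ + r₋)/2) ‖u - x‖`, and
`r t - (r₊ + r₋)/2 = h²/8` in all three cases. Multiply by `2/(h/2)² = 8/h²`; `η = ε h²/16`. -/
def GStep : Prop :=
  ∀ (X : Type u) [NormedAddCommGroup X] [NormedSpace ℝ X] (S : St X) (h ε : ℝ), ‖S.x‖ ≤ 1 → 0 < h →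
    0 < ε →
    ∃ A : Fin 3 → ℝ, A 0 / 4 + A 1 / 2 + A 2 / 4 ≤ 2 * en S h / h ^ 2 ∧
      ∀ i : Fin 3, ∃ S' : St X, ‖S'.x‖ ≤ 1 ∧ S'.m = S.m + (((i : ℕ) : ℝ) - 1) * (h / 2) ∧
        ‖S'.g - S.g‖ ≤ h ∧ ‖(S'.f + S'.m • S'.g) - (S.f + S'.m • S.g)‖ ≤ h ^ 2 / 2 ∧
        2 * en S' (h / 2) / (h / 2) ^ 2 + ‖S'.x - S.x‖ ≤ A i + ε

/-- PACKET SEL (choice of a path, method of conditional expectations).

PROOF. For a word `w : ℕ → Fin 3` of which only the letters `w i`, `i < k`, count, and `τ ∈ {0, 2}` let `P τ j k w = ∏ i ∈ Ico j (j + l j), (if i < k then (if w i = τ then 1 else 0) else 1/4)` and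
`B k w = ∑' j, (P 0 j k w + P 2 j k w)`. (1) `0 ≤ P ≤ 4^k (1/4)^(l j)` (each factor with `i < k` is at most `1 = 4 * (1/4)`, there are at most `k` of them): summable. (2) `B 0 w = 2 ∑' (1/4)^(l j) ≤ 1/4`. (3) `B (k+1) (w with w k := 0) / 4 + B (k+1) (w with w k := 1) / 2 +
B (k+1) (w with w k := 2) / 4 = B k w` (`Function.update`; for every `j` and `τ`: if `k ∈ Ico j (j + l j)` the factor `i = k` is `1` for exactly one of the letters, which is `0` or `2` and has weight `1/4`, and `0` for the others; otherwise nothing changes). (4) if `w i = τ` for all `i ∈ Ico j (j + l j)` then `P τ j k w = 1` for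
`k = j + l j`, so `B k w ≥ 1`. Let `a₀ = al 0 s0`, `μ = 2 (a₀ + 1)`. One constructs (dependent choice, e.g. `Pool.Agent.Helper18.PB.dep_choice` in `Pool/Agent/Helper18/PB/Seq.lean`, on triples `(s, w, D)`) a path with
`al k s + D + μ B k w ≤ a₀ + 1 + μ/4 - (1/2)^k`, `D` = sum of the displacements so far: at the step `k` use the hypothesis with `ε = (1/2)^(k+1)`; the weighted mean of
`A i + ε + D + μ B (k+1) (w with w k := i)` is at most `al k s + ε + D + μ B k w`, so one `i` does it. As `a₀ + 1 + μ/4 = 3 μ/4 < μ`, we get `B k w < 1` for all `k`, hence no monochromatic window by (4) for the limit word (the letters `< k` of the later words do not change), and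
`al k s, D ≤ 3 μ/4 ≤ μ`. -/
def GSel : Prop :=
  ∀ (S : Type u) (al : ℕ → S → ℝ) (R : ℕ → Fin 3 → S → S → Prop) (d : S → S → ℝ) (s0 : S)
    (l : ℕ → ℕ), (∀ k s, 0 ≤ al k s) → (∀ s s', 0 ≤ d s s') →
    (∀ (k : ℕ) (s : S) (ε : ℝ), 0 < ε → ∃ A : Fin 3 → ℝ, A 0 / 4 + A 1 / 2 + A 2 / 4 ≤ al k s ∧
      ∀ i, ∃ s', R k i s s' ∧ al (k + 1) s' + d s s' ≤ A i + ε) →
    Summable (fun j => (1 / 4 : ℝ) ^ l j) → 2 * ∑' j, (1 / 4 : ℝ) ^ l j ≤ 1 / 4 →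
    ∃ (st : ℕ → S) (w : ℕ → Fin 3), st 0 = s0 ∧ (∀ k, R k (w k) (st k) (st (k + 1))) ∧
      (∀ k, al k (st k) ≤ 2 * (al 0 s0 + 1)) ∧
      (∀ k, ∑ i ∈ range k, d (st i) (st (i + 1)) ≤ 2 * (al 0 s0 + 1)) ∧
      ∀ j, (∃ k, j ≤ k ∧ k < j + l j ∧ w k ≠ 0) ∧ ∃ k, j ≤ k ∧ k < j + l j ∧ w k ≠ 2

/-- A path of states; `H` = the first scale. -/
structure Path (X : Type u) [NormedAddCommGroup X] [NormedSpace ℝ X] (st : ℕ → St X)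
    (w : ℕ → Fin 3) (H Λ : ℝ) : Prop where
  H0 : 0 < H
  L0 : 0 ≤ Λ
  hx : ∀ k, ‖(st k).x‖ ≤ 1
  hm : ∀ k, (st (k + 1)).m = (st k).m + (((w k : ℕ) : ℝ) - 1) * (H / 2 ^ k / 2)
  hg : ∀ k, ‖(st (k + 1)).g - (st k).g‖ ≤ H / 2 ^ k
  hf : ∀ k, ‖((st (k + 1)).f + (st (k + 1)).m • (st (k + 1)).g) -
    ((st k).f + (st (k + 1)).m • (st k).g)‖ ≤ (H / 2 ^ k) ^ 2 / 2
  he : ∀ k, 2 * en (st k) (H / 2 ^ k) / (H / 2 ^ k) ^ 2 ≤ Λ
  hd : ∀ k, ∑ i ∈ range k, ‖(st (i + 1)).x - (st i).x‖ ≤ Λ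

/-- PACKET LIM (the limit of a path). Write `h_k = H / 2^k`, `I_k = [m_k - h_k, m_k + h_k]`, `f_(k,s) = (st k).f + s (st k).g`.

PROOF. `|m_(k+1) - m_k| ≤ h_k / 2 = h_k - h_(k+1)`, so the intervals are nested; `m_k → σ`, `|σ - m_k| ≤ h_k`. The sum of the displacements is bounded, so `x_k → z` (`X` complete, e.g. `cauchySeq_of_summable_norm`-type lemma), `‖z‖ ≤ 1`. `g_k → G`, `‖G - g_k‖ ≤ ∑_(j ≥ k) h_j = 2 h_k`.
For every real `s`: `f_(j+1,s) - f_(j,s) = (f_(j+1,m') - f_(j,m')) + (s - m') (g_(j+1) - g_j)` with `m' = m_(j+1)`, so `‖f_(j+1,s) - f_(j,s)‖ ≤ h_j²/2 + |s - m_(j+1)| h_j ≤ h_j² + |s - σ| h_j` (as `|σ - m_(j+1)| ≤ h_(j+1) = h_j/2`). So `f_(k,s)` converges; `F` = the limit for `s = σ`, and the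
limit for `s` is `F + (s - σ) G`; `‖F + (s - σ) G - f_(k,s)‖ ≤ (4/3) h_k² + 2 |s - σ| h_k`. In particular `‖F - f_(k,σ)‖ ≤ 2 h_k²` and `≤ 6 h_k²` for the two ends `s` of `I_k`. Let `N± = ‖f_(k,m_k ± h_k)‖`, `2 en = (N₊ - f_(k,m_k+h_k) x_k) + (N₋ - f_(k,m_k-h_k) x_k) ≤ Λ h_k²`, both terms are `≥ 0`. So for
`a = σ - (m_k - h_k) ≥ 0`, `b = m_k + h_k - σ ≥ 0` (`a + b = 2 h_k`): `2 h_k f_(k,σ) x_k = a f_(k,m_k+h_k) x_k + b f_(k,m_k-h_k) x_k ≥ a N₊ + b N₋ - 2 h_k Λ h_k²` (*). As `k → ∞` this gives `F z ≥ ‖F‖` (`N± → ‖F‖`: `‖f_(k,m_k±h_k) - F‖ ≤ 6 h_k² + 2 h_k ‖G‖`), so `F y ≤ F z` on the ball. Moreover `F z = ‖F‖ ≥ F x_k ≥ f_(k,σ) x_k - 2 h_k²`, so by (*)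
`a N₊ + b N₋ - 2 h_k F z ≤ 2 h_k (Λ + 2) h_k²`. Finally `‖F + b G‖ ≤ N₊ + 6 h_k²`, `F z - a G z ≤ ‖F - a G‖ ≤ N₋ + 6 h_k²`, so
`a (‖F + b G‖ - F z - b G z) = a (‖F + b G‖ - F z) - b a G z ≤ a (N₊ + 6 h_k² - F z) + b (N₋ + 6 h_k² - F z) ≤ 2 h_k (Λ + 8) h_k²`. The other inequality is symmetric. -/
def GLim : Prop :=
  ∀ (X : Type u) [NormedAddCommGroup X] [NormedSpace ℝ X] [CompleteSpace X] (st : ℕ → St X)
    (w : ℕ → Fin 3) (H Λ : ℝ), Path X st w H Λ →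
    ∃ (F G : X →L[ℝ] ℝ) (z : X) (σ : ℝ), ‖z‖ ≤ 1 ∧ (∀ k, |σ - (st k).m| ≤ H / 2 ^ k) ∧
      (∀ k, ‖G - (st k).g‖ ≤ 2 * (H / 2 ^ k)) ∧
      (∀ k, ‖F - ((st k).f + σ • (st k).g)‖ ≤ 2 * (H / 2 ^ k) ^ 2) ∧
      (∀ y : X, ‖y‖ ≤ 1 → F y ≤ F z) ∧
      ∀ (k : ℕ) (a b : ℝ), a = σ - ((st k).m - H / 2 ^ k) → b = (st k).m + H / 2 ^ k - σ →
        a * (‖F + b • G‖ - (F + b • G) z) ≤ (Λ + 12) * (H / 2 ^ k) ^ 2 * (2 * (H / 2 ^ k)) ∧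
        b * (‖F - a • G‖ - (F - a • G) z) ≤ (Λ + 12) * (H / 2 ^ k) ^ 2 * (2 * (H / 2 ^ k))

/-- PACKET GEO (no monochromatic window).

PROOF. Write `h_n = H / 2^n`, `I_n = [m_n - h_n, m_n + h_n]`, `V t = ‖F + t G‖ - (F + t G) z ≥ 0` (convex in `t`, `V 0 = 0` since `F y ≤ F z` on the ball). CLAIM: there is `n`, `j ≤ n < j + l`, with `σ` at distance at least `h_n / 2` from both ends of `I_n`. If `w n = 1` for
some `n` of the window: `|σ - m_(n+1)| ≤ h_n / 2` and `m_(n+1) = m_n`. Otherwise all letters of the window are `0` or `2`, both occur, so there are neighbours `n, n + 1` in the window with different letters (`Nat` induction: otherwise all letters of the window would be equal). If `w n = 0`, `w (n+1) = 2`: `m_(n+1) = m_n - h_n/2`,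
`m_(n+2) = m_(n+1) + h_n/4`, `|σ - m_(n+2)| ≤ h_n/4`, so `m_n - h_n/2 ≤ σ ≤ m_n`. The other case is symmetric. Now let `a, b` be the distances of `σ` to the ends of `I_n`: `a, b ≥ h_n/2`; by hypothesis `a V(b) ≤ C h_n² 2 h_n`, so `V(b) ≤ 4 C h_n²`, and by convexity, for `0 < t ≤ h_n/2 ≤ b`: `V(t) ≤ (t/b) V(b) ≤ 8 C h_n t ≤ 8 C h_j t`. The
same for `V(-t)`. And `h_(j+l) ≤ h_n/2` as `n < j + l`. -/
def GGeo : Prop :=
  ∀ (X : Type u) [NormedAddCommGroup X] [NormedSpace ℝ X] (F G : X →L[ℝ] ℝ) (z : X) (σ C H : ℝ)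
    (m : ℕ → ℝ) (w : ℕ → Fin 3) (j l : ℕ), 0 < H → 0 ≤ C → ‖z‖ ≤ 1 →
    (∀ y : X, ‖y‖ ≤ 1 → F y ≤ F z) →
    (∀ k, m (k + 1) = m k + (((w k : ℕ) : ℝ) - 1) * (H / 2 ^ k / 2)) →
    (∀ k, |σ - m k| ≤ H / 2 ^ k) →
    (∀ (k : ℕ) (a b : ℝ), a = σ - (m k - H / 2 ^ k) → b = m k + H / 2 ^ k - σ →
        a * (‖F + b • G‖ - (F + b • G) z) ≤ C * (H / 2 ^ k) ^ 2 * (2 * (H / 2 ^ k)) ∧
        b * (‖F - a • G‖ - (F - a • G) z) ≤ C * (H / 2 ^ k) ^ 2 * (2 * (H / 2 ^ k))) →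
    (∃ k, j ≤ k ∧ k < j + l ∧ w k ≠ 0) → (∃ k, j ≤ k ∧ k < j + l ∧ w k ≠ 2) →
    ∀ t : ℝ, 0 < t → t ≤ H / 2 ^ (j + l) →
      ‖F + t • G‖ - (F + t • G) z ≤ 8 * C * (H / 2 ^ j) * t ∧
      ‖F - t • G‖ - (F - t • G) z ≤ 8 * C * (H / 2 ^ j) * t

/-- SD (the scheme): `GStep → GSel → GLim → GGeo → GSD` (helper36).

PROOF. Let `Λ = 2 (1/κ + 1)`, `C = Λ + 12`, and `c` with `32 C ≤ 2^c`, `4/κ + 16 ≤ 2^c`. For large `n` let `H = 2^(-n)`, `l j = q (j + n - c) - c`; `2 ∑ 4^(-l j) ≤ 1/4`. Initial state `(f, g, x₀, 0)`, `f x₀ > 1 - H²/(4 κ)`; since `‖f + s g‖ ≤ 1 + s²/(4κ)`, its normalised energy is at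
most `1/κ`. `GStep`, `GSel`, `GLim`, `GGeo` give `F, G, z, σ`. Let `|G (y - z)| = τ`, `2^(-j-1) < τ ≤ 2^(-j)`. If `j + c ≥ n` put `i = j + c - n`, `t = H / 2^(i + l i) = 2^(-j - q j)`: `F (y - z) ≤ V(±t) - t τ ≤ 8 C 2^(-j-c) t - 2^(-j-1) t ≤ - 2^(-j-2) t`. If `j + c < n`, then
`τ ≥ 2^c H`, and the claim follows from `f y + κ (g y)² ≤ 1`. -/
def GSD : Prop :=
  ∀ (X : Type u) [NormedAddCommGroup X] [NormedSpace ℝ X] [CompleteSpace X] (f g : X →L[ℝ] ℝ)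
    (κ ρ : ℝ) (b : ℕ) (q : ℕ → ℕ), 0 < κ → 0 < ρ →
    (∀ y : X, ‖y‖ ≤ 1 → f y + κ * (g y) ^ 2 ≤ 1) →
    (∀ δ : ℝ, 0 < δ → ∃ x : X, ‖x‖ ≤ 1 ∧ 1 - δ < f x) →
    Summable (fun j => (1 / 4 : ℝ) ^ q j) → (∀ j, b ≤ j → (1 / 2 : ℝ) ^ q j ≤ κ / 8) →
    ∃ (F G : X →L[ℝ] ℝ) (z : X), ‖z‖ ≤ 1 ∧ ‖F - f‖ ≤ ρ ∧ ‖G - g‖ ≤ ρ ∧
      (∀ y : X, ‖y‖ ≤ 1 → F y ≤ F z) ∧
      ∀ j, b ≤ j → ∀ y : X, ‖y‖ ≤ 1 → (1 / 2) ^ (j + 1) < |G (y - z)| →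
        |G (y - z)| ≤ (1 / 2) ^ j → F (y - z) + (1 / 2) ^ q j * (1 / 4) ^ (j + 1) ≤ 0

/-- PACKET SEQ (the exponents).

PROOF. Let `α j = 8 * 4^l * a (j - l) + (1/2)^j` (natural subtraction); `α j > 0`, `∑ (α j)^2 < ∞` (`(x + y)² ≤ 2 x² + 2 y²`, shift of a summable sequence), so `α j → 0`. Take `b ≥ l` with `α j ≤ min 1 (K/2)` for `j ≥ b`. For `j ≥ b` there is `q j` with `α j ≤ (1/2)^(q j) ≤ 2 α j` (`exists_nat_pow_near_of_lt_one` or so), for `j < b` put `q j = 0`.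
`(1/4)^(q j) = ((1/2)^(q j))² ≤ 4 (α j)²` for `j ≥ b`: summable. -/
def GSeq : Prop :=
  ∀ (a : ℕ → ℝ) (l : ℕ) (K : ℝ), 0 < K → (∀ k, 0 ≤ a k) → Summable (fun k => a k ^ 2) →
    ∃ (b : ℕ) (q : ℕ → ℕ), l ≤ b ∧ Summable (fun j => (1 / 4 : ℝ) ^ q j) ∧
      ∀ j, b ≤ j → 8 * 4 ^ l * a (j - l) ≤ (1 / 2 : ℝ) ^ q j ∧ (1 / 2 : ℝ) ^ q j ≤ K

/-- PACKET FIN (from the scheme to a norm attaining operator): prove `GSD → GSeq → GFin`.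

PROOF. Copy `Pool.Agent.Helper18.PB2.a82` (file `Pool/Agent/Helper18/PB2/Fin.lean`), with `M = 0` (or with the frame `exists_frame` for `M = 0`, and `G 0`, `h 0` only; a sum over `Fin 1` simplifies with `Fin.sum_univ_one` / `Fin.sum_univ_zero`...). The changes: the numbers `a k` of `SqFlat` are `≥ 0` (`h = 0`). Choose `l` with `4 * L2 ≤ 2^l`, then `b0, q` by
`GSeq` with `K = κ1 / 8`, and `b = (1/2)^b0` as the radius in the choice of `b2`; `e0` with `4 * L2 * e0 ≤ 1` (instead of `4 * C3 * e0 ≤ 1`), `e0 ≤ b / 4`, `e0 ≤ 1/4`, `L2 * e0 ≤ ρ/2`, `L2 * e0 ≤ κ b2²/4`. Apply `GSD` with `κ1`, `r`, `b0`, `q`. The only new point is the estimate in `hnear`: `U = |G (y - z)| ≤ b`,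
`D = F z - F y ∈ [0, 1]`, `T' y = F y • p + H`, `w H = 0`, `‖H‖ ≤ L2 (U + 2 D ε)`, `1/2 ≤ F y ≤ F z ≤ 2`. To show: `‖T' y‖ ≤ F z = F y + D`. If `U ≤ 2 D ε` then `‖H‖ ≤ 4 L2 D ε ≤ D`, and `‖T' y‖ ≤ F y + ‖H‖`. Otherwise `U > 0`; take `j ≥ b0` with `(1/2)^(j+1) < U ≤ (1/2)^j` (`exists_nat_pow_near_of_lt_one`); `D ≥ (1/2)^(q j) (1/4)^(j+1)`;
`‖H‖ ≤ 2 L2 U`, so `h' = (F y)⁻¹ • H` has norm `≤ 4 L2 U ≤ 2^l (1/2)^j = (1/2)^(j-l)` (`l ≤ b0 ≤ j`), and `‖T' y‖ = F y ‖p + h'‖ ≤ F y + 2 a (j-l) (1/4)^(j-l) = F y + 2 * 4^l a (j-l) (1/4)^j ≤ F y + (1/4) (1/2)^(q j) (1/4)^j ≤ F y + D`. -/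
def GFin : Prop :=
  ∀ (X : Type u) [NormedAddCommGroup X] [NormedSpace ℝ X] [CompleteSpace X]
    (Y : Type v) [NormedAddCommGroup Y] [NormedSpace ℝ Y] [FiniteDimensional ℝ Y]
    (T : X →L[ℝ] Y) (p : Y) (κ ρ : ℝ), Module.finrank ℝ Y = 2 → ‖p‖ = 1 → 0 < κ → 0 < ρ →
    (∀ x : X, ‖x‖ ≤ 1 → ‖T x‖ ≤ 1 - κ * min ‖T x - p‖ ‖T x + p‖ ^ 2) →
    (∀ δ : ℝ, 0 < δ → ∃ x : X, ‖x‖ ≤ 1 ∧ ‖T x - p‖ < δ) → SqFlat p →
    ∃ T' : X →L[ℝ] Y, ‖T' - T‖ ≤ ρ ∧ Helper63.PropB.NormAttaining T'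

/-- CRIT (the criterion): `GInit → GFin → Final`; copy `Pool.Agent.Helper18.PB2.final12` (helper36). -/
def Final : Prop :=
  ∀ (Y : Type v) [NormedAddCommGroup Y] [NormedSpace ℝ Y] [FiniteDimensional ℝ Y]
    [MeasurableSpace Y] [BorelSpace Y], Module.finrank ℝ Y = 2 →
    μH[(1 : ℝ)] {p : Y | ‖p‖ = 1 ∧ ¬ SqFlat p} = 0 → Helper63.PropB.PropertyB.{u, v} Y

end Pool.Agent.Helper36.Sq
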