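import Pool.Agent.Helper36.Sq.Goals

/-! CRIT: the criterion (adapted from Helper18/PB2/Crit). -/

set_option autoImplicit false

open MeasureTheory Measure

namespace Pool.Agent.Helper36.Sq

open Pool.Agent.Helper18.PB

universe u v

open Helper63.PropB in
theorem final (hI : GInit.{u, v}) (hF : GFin.{u, v}) : Final.{u, v} := by
  intro Y _ _ _ _ _ hn hZ'
  have hZ : μH[(Module.finrank ℝ Y : ℝ) - 1] {p : Y | ‖p‖ = 1 ∧ ¬ SqFlat p} = 0 := by
    rw [hn]
    norm_num
    exact hZ'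
  intro X _ _ _ _
  rw [Metric.dense_iff]
  intro T r hr
  rcases eq_or_ne T 0 with h0 | h0
  · subst h0
    obtain ⟨x, hx⟩ := exists_norm_eq X (zero_le_one)
    exact ⟨0, Metric.mem_ball_self hr, ⟨x, hx, by simp⟩⟩
  have hTpos : 0 < ‖T‖ := norm_pos_iff.2 h0
  obtain ⟨A, p, m, κ, hA, hp, hpZ, hm, hκ, hgap, happ⟩ :=
    hI X Y T _ (r / (2 * ‖T‖)) h0 (by positivity) hZ
  have hflat : SqFlat p := by
    by_contra hcon
    exact hpZ ⟨hp, hcon⟩
  have hsub : ∀ x : X, A (T x) - m • p = m • ((m⁻¹ • A.comp T) x - p) := by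
    intro x
    simp only [_root_.smul_apply, ContinuousLinearMap.comp_apply, smul_sub, smul_smul,
      mul_inv_cancel₀ hm.ne', one_smul]
  have hadd : ∀ x : X, A (T x) + m • p = m • ((m⁻¹ • A.comp T) x + p) := by
    intro x
    simp only [_root_.smul_apply, ContinuousLinearMap.comp_apply, smul_add, smul_smul,
      mul_inv_cancel₀ hm.ne', one_smul]
  have hnsub : ∀ x : X, ‖A (T x) - m • p‖ = m * ‖(m⁻¹ • A.comp T) x - p‖ := by
    intro x
    rw [hsub, norm_smul, Real.norm_eq_abs, abs_of_pos hm]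
  have hnadd : ∀ x : X, ‖A (T x) + m • p‖ = m * ‖(m⁻¹ • A.comp T) x + p‖ := by
    intro x
    rw [hadd, norm_smul, Real.norm_eq_abs, abs_of_pos hm]
  obtain ⟨T', hT', x₀, hx₀, hx₀'⟩ := hF X Y (m⁻¹ • A.comp T) p (κ * m) (r / (4 * m)) hn hp
    (by positivity) (by positivity) (by
      intro x hx
      have h1 := hgap x hx
      rw [hnsub, hnadd, ← mul_min_of_nonneg _ _ hm.le] at h1
      have h2 : ‖(m⁻¹ • A.comp T) x‖ = m⁻¹ * ‖A (T x)‖ := by
        rw [_root_.smul_apply, norm_smul, Real.norm_eq_abs,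
          abs_of_pos (inv_pos.2 hm)]
        rfl
      rw [h2, inv_mul_le_iff₀ hm]
      refine h1.trans (le_of_eq ?_)
      ring) (by
      intro δ hδ
      obtain ⟨x, hx, hx'⟩ := happ (m * δ) (by positivity)
      refine ⟨x, hx, ?_⟩
      rw [hnsub] at hx'
      exact lt_of_mul_lt_mul_left hx' hm.le) hflat
  refine ⟨m • T', ?_, ⟨x₀, hx₀, ?_⟩⟩
  · rw [Metric.mem_ball, dist_eq_norm]
    have h1 : m • T' - T = m • (T' - m⁻¹ • A.comp T)
        + (A - ContinuousLinearMap.id ℝ Y).comp T := by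
      ext x
      simp only [_root_.sub_apply, _root_.smul_apply,
        _root_.add_apply, ContinuousLinearMap.comp_apply,
        ContinuousLinearMap.id_apply, smul_sub, smul_smul, mul_inv_cancel₀ hm.ne', one_smul]
      abel
    rw [h1]
    refine (norm_add_le _ _).trans_lt ?_
    have h2 : ‖(A - ContinuousLinearMap.id ℝ Y).comp T‖ ≤ r / (2 * ‖T‖) * ‖T‖ := by
      refine (ContinuousLinearMap.opNorm_comp_le _ _).trans ?_
      gcongr
    have h3 : r / (2 * ‖T‖) * ‖T‖ = r / 2 := by field_simp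
    have h4 : ‖m • (T' - m⁻¹ • A.comp T)‖ ≤ r / 4 := by
      rw [norm_smul, Real.norm_eq_abs, abs_of_pos hm]
      calc m * ‖T' - m⁻¹ • A.comp T‖ ≤ m * (r / (4 * m)) := by gcongr
        _ = r / 4 := by field_simp
    linarith
  · rw [_root_.smul_apply, norm_smul, norm_smul, hx₀']

end Pool.Agent.Helper36.Sq
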