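import Pool.Agent.Helper36.Sq.Goals
import Pool.Agent.Helper13.PB.A8

/-!
# From the scheme to a norm attaining operator, spheres ruled by faces of codimension 2
(adapted from Helper27/Sq/FIN, which is adapted from Helper18/PB2/Fin and Helper13/PB/A8)
-/

set_option autoImplicit false

namespace Pool.Agent.Helper36.Sq

open Pool.Agent.Helper13.PB Module

universe u v

/-- The unit sphere contains a piece of dimension `n - 2` of an affine subspace around `p`, and it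
is square-Dini flat at `p`. -/
def RuledSqFlat {Y : Type v} [NormedAddCommGroup Y] [NormedSpace ℝ Y] (p : Y) : Prop :=
  ∃ w : Y →L[ℝ] ℝ, ‖w‖ ≤ 1 ∧ w p = 1 ∧
    (∃ (E : Submodule ℝ Y) (δ : ℝ), 0 < δ ∧ finrank ℝ Y ≤ finrank ℝ E + 2 ∧
      ∀ e ∈ E, w e = 0 ∧ (‖e‖ ≤ δ → ‖p + e‖ ≤ 1)) ∧
    ∃ a : ℕ → ℝ, Summable (fun k => a k ^ 2) ∧
      ∀ (k : ℕ) (h : Y), w h = 0 → ‖h‖ ≤ (1 / 2) ^ k → ‖p + h‖ ≤ 1 + a k * (1 / 4) ^ k

def GFinR : Prop :=
  ∀ (X : Type u) [NormedAddCommGroup X] [NormedSpace ℝ X] [CompleteSpace X]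
    (Y : Type v) [NormedAddCommGroup Y] [NormedSpace ℝ Y] [FiniteDimensional ℝ Y]
    (T : X →L[ℝ] Y) (p : Y) (κ ρ : ℝ), ‖p‖ = 1 → 0 < κ → 0 < ρ →
    (∀ x : X, ‖x‖ ≤ 1 → ‖T x‖ ≤ 1 - κ * min ‖T x - p‖ ‖T x + p‖ ^ 2) →
    (∀ δ : ℝ, 0 < δ → ∃ x : X, ‖x‖ ≤ 1 ∧ ‖T x - p‖ < δ) → RuledSqFlat p →
    ∃ T' : X →L[ℝ] Y, ‖T' - T‖ ≤ ρ ∧ Helper63.PropB.NormAttaining T'

theorem exists_frameR {Y : Type v} [NormedAddCommGroup Y] [NormedSpace ℝ Y]
    [FiniteDimensional ℝ Y] (p : Y) (w : Y →L[ℝ] ℝ) (hw : w p = 1) (E : Submodule ℝ Y)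
    (hEw : ∀ e ∈ E, w e = 0) (hE : finrank ℝ Y ≤ finrank ℝ E + 2) :
    ∃ (h : Y) (c : Y →L[ℝ] ℝ) (π : Y →L[ℝ] Y), w h = 0 ∧ c p = 0 ∧ (∀ z, π z ∈ E) ∧ π p = 0 ∧
      ∀ z, z = w z • p + c z • h + π z := by
  set W : Submodule ℝ Y := E ⊔ Submodule.span ℝ {p} with hW
  have hmem : ∀ z ∈ W, w z = 0 → z ∈ E := by
    intro z hz hwz
    rw [hW, Submodule.mem_sup] at hz
    obtain ⟨e, he, v, hv, rfl⟩ := hz
    obtain ⟨t, rfl⟩ := Submodule.mem_span_singleton.1 hv
    rw [map_add, hEw e he, map_smul, hw, zero_add, smul_eq_mul, mul_one] at hwz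
    rw [hwz, zero_smul, add_zero]
    exact he
  by_cases htop : W = ⊤
  · refine ⟨0, 0, ContinuousLinearMap.id ℝ Y - w.smulRight p, by simp, by simp, ?_, by simp [hw],
      by intro z; simp⟩
    intro z
    apply hmem _ (by rw [htop]; trivial)
    simp [hw]
  · obtain ⟨c0, hc0, hle⟩ := Submodule.exists_le_ker_of_lt_top W (lt_top_iff_ne_top.2 htop)
    have hcW : ∀ z ∈ W, c0 z = 0 := fun z hz => hle hz
    have hc0p : c0 p = 0 := hcW p (Submodule.mem_sup_right (Submodule.mem_span_singleton_self p))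
    obtain ⟨z0, hz0⟩ : ∃ z, c0 z ≠ 0 := by
      by_contra hcon
      push Not at hcon
      exact hc0 (LinearMap.ext hcon)
    have hker : W = LinearMap.ker c0 := by
      apply Submodule.eq_of_le_of_finrank_le hle
      have h1 : finrank ℝ (LinearMap.ker c0) + 1 = finrank ℝ Y := by
        have h2 := LinearMap.finrank_range_add_finrank_ker c0
        have h3 : LinearMap.range c0 = ⊤ := by
          apply LinearMap.range_eq_top.2
          intro t
          exact ⟨(t / c0 z0) • z0, by simp [hz0]⟩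
        rw [h3, finrank_top, finrank_self] at h2
        omega
      have h4 : finrank ℝ W = finrank ℝ E + 1 := by
        have hp0 : p ≠ 0 := by
          rintro rfl
          simp at hw
        have hdis : E ⊓ Submodule.span ℝ {p} = ⊥ := by
          rw [eq_bot_iff]
          rintro z ⟨hz1, hz2⟩
          obtain ⟨t, rfl⟩ := Submodule.mem_span_singleton.1 hz2
          have := hEw _ hz1
          rw [map_smul, hw, smul_eq_mul, mul_one] at this
          simp [this]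
        have h5 := Submodule.finrank_sup_add_finrank_inf_eq E (Submodule.span ℝ {p})
        rw [hdis, finrank_bot, finrank_span_singleton hp0] at h5
        omega
      omega
    set h0 : Y := z0 - w z0 • p with hh0
    have hch0 : c0 h0 = c0 z0 := by simp [hh0, hc0p]
    have hwh0 : w h0 = 0 := by simp [hh0, hw]
    set c : Y →L[ℝ] ℝ := LinearMap.toContinuousLinearMap c0 with hc
    have hcc : ∀ z, c z = c0 z := fun z => rfl
    set h : Y := (c0 z0)⁻¹ • h0 with hh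
    have hch : c h = 1 := by
      rw [hcc, hh, map_smul, hch0, smul_eq_mul, inv_mul_cancel₀ hz0]
    have hwh : w h = 0 := by rw [hh, map_smul, hwh0, smul_zero]
    have hcp : c p = 0 := by rw [hcc, hc0p]
    refine ⟨h, c, ContinuousLinearMap.id ℝ Y - w.smulRight p - c.smulRight h, hwh, hcp, ?_, ?_, ?_⟩
    · intro z
      apply hmem
      · rw [hker, LinearMap.mem_ker, ← hcc]
        simp [hcp, hch]
      · simp [hw, hwh]
    · simp [hw, hcp]
    · intro z
      simp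

theorem gFinR (hSD : GSD.{u}) (hSeq : GSeq) : GFinR.{u, v} := by
  intro X _ _ _ Y _ _ _ T p κ ρ hp hκ hρ hQ hA hflat
  obtain ⟨w, hw1, hwp, ⟨E, δ, hδ, hE, hEw⟩, a, ha2, hflat⟩ := hflat
  have ha0 : ∀ k, 0 ≤ a k := by
    intro k
    have h1 := hflat k 0 (by simp) (by simp)
    rw [add_zero, hp] at h1
    have h2 : 0 ≤ a k * (1 / 4 : ℝ) ^ k := by linarith
    by_contra hc
    push Not at hc
    have h3 : a k * (1 / 4 : ℝ) ^ k < 0 := mul_neg_of_neg_of_pos hc (by positivity)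
    linarith
  obtain ⟨h, c, π, hwh, hcp, hπE, hπp, hdec⟩ := exists_frameR p w hwp E (fun e he => (hEw e he).1) hE
  set L1 : ℝ := 1 + ‖c‖ with hL1
  set L2 : ℝ := 1 + ‖h‖ with hL2
  have hL1p : 0 < L1 := by positivity
  have hL2p : 0 < L2 := by positivity
  -- functionals
  set f : X →L[ℝ] ℝ := w.comp T with hf
  set g : X →L[ℝ] ℝ := c.comp T with hg
  set κ1 : ℝ := κ / L1 ^ 2 with hκ1
  have hκ1p : 0 < κ1 := by positivity
  have hfT : ∀ y, f y ≤ ‖T y‖ := by
    intro y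
    have h1 := w.le_opNorm (T y)
    have h2 : w (T y) ≤ ‖w (T y)‖ := Real.le_norm_self _
    have h3 : ‖w‖ * ‖T y‖ ≤ 1 * ‖T y‖ := mul_le_mul_of_nonneg_right hw1 (norm_nonneg _)
    change w (T y) ≤ _
    linarith
  have habs : ∀ z : Y, |c z| ≤ L1 * ‖z‖ := by
    intro z
    have h1 := c.le_opNorm z
    rw [Real.norm_eq_abs] at h1
    have h2 : ‖c‖ * ‖z‖ ≤ L1 * ‖z‖ :=
      mul_le_mul_of_nonneg_right (by rw [hL1]; linarith) (norm_nonneg _)
    linarith
  have hgm : ∀ y, |g y| ≤ L1 * ‖T y - p‖ := by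
    intro y
    have h1 := habs (T y - p)
    rw [map_sub, hcp, sub_zero] at h1
    exact h1
  have hgp : ∀ y, |g y| ≤ L1 * ‖T y + p‖ := by
    intro y
    have h1 := habs (T y + p)
    rw [map_add, hcp, add_zero] at h1
    exact h1
  have hQ1 : ∀ y : X, ‖y‖ ≤ 1 → f y + κ1 * (g y) ^ 2 ≤ 1 := by
    intro y hy
    have h1 := hQ y hy
    have h2 : |g y| ≤ L1 * min ‖T y - p‖ ‖T y + p‖ := by
      rw [mul_min_of_nonneg _ _ hL1p.le]
      exact le_min (hgm y) (hgp y)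
    have h3 : (g y) ^ 2 ≤ (L1 * min ‖T y - p‖ ‖T y + p‖) ^ 2 := by
      rw [← sq_abs (g y)]
      exact pow_le_pow_left₀ (abs_nonneg _) h2 2
    have h4 : κ1 * (g y) ^ 2 ≤ κ * min ‖T y - p‖ ‖T y + p‖ ^ 2 := by
      calc κ1 * (g y) ^ 2 ≤ κ1 * (L1 * min ‖T y - p‖ ‖T y + p‖) ^ 2 :=
            mul_le_mul_of_nonneg_left h3 hκ1p.le
        _ = κ * min ‖T y - p‖ ‖T y + p‖ ^ 2 := by
            rw [hκ1]; field_simp
    have := hfT y
    linarith
  have hfA : ∀ x, 1 - ‖T x - p‖ ≤ f x := by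
    intro x
    have h1 := w.le_opNorm (T x - p)
    have h2 : -(w (T x - p)) ≤ ‖w (T x - p)‖ := by
      rw [Real.norm_eq_abs]; exact neg_le_abs _
    have h3 : ‖w‖ * ‖T x - p‖ ≤ 1 * ‖T x - p‖ := mul_le_mul_of_nonneg_right hw1 (norm_nonneg _)
    rw [map_sub, hwp] at h1 h2
    change _ ≤ w (T x)
    linarith
  -- constants
  obtain ⟨l, hl⟩ : ∃ l : ℕ, 8 * L2 ≤ 2 ^ l := by
    obtain ⟨l, hl⟩ := pow_unbounded_of_one_lt (8 * L2) (one_lt_two : (1 : ℝ) < 2)
    exact ⟨l, hl.le⟩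
  obtain ⟨b0, q, hlb, hqs, hqb⟩ := hSeq a l (κ1 / 8) (by positivity) ha0 ha2
  set b : ℝ := (1 / 2) ^ b0 with hbdef
  have hb : 0 < b := by positivity
  set L3 : ℝ := 1 + ‖π‖ with hL3
  have hL3p : 0 < L3 := by positivity
  set b2 : ℝ := min (min (b / (4 * L1)) (1 / 4)) (δ / (4 * L3)) with hb2
  have hb2p : 0 < b2 := by positivity
  have hb2a : L1 * b2 ≤ b / 4 := by
    have : b2 ≤ b / (4 * L1) := (min_le_left _ _).trans (min_le_left _ _)
    calc L1 * b2 ≤ L1 * (b / (4 * L1)) := mul_le_mul_of_nonneg_left this hL1p.le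
      _ = b / 4 := by field_simp
  have hb2b : b2 ≤ 1 / 4 := (min_le_left _ _).trans (min_le_right _ _)
  have hb2c : 4 * (‖π‖ * b2) ≤ δ := by
    have h1 : b2 ≤ δ / (4 * L3) := min_le_right _ _
    have h2 : ‖π‖ * b2 ≤ L3 * b2 := mul_le_mul_of_nonneg_right (by rw [hL3]; linarith) hb2p.le
    have h3 : L3 * b2 ≤ L3 * (δ / (4 * L3)) := mul_le_mul_of_nonneg_left h1 hL3p.le
    have h4 : L3 * (δ / (4 * L3)) = δ / 4 := by field_simp
    linarith
  -- ε0
  obtain ⟨e0, he0, he1, he2, he3, he4, he5⟩ : ∃ e0 : ℝ, 0 < e0 ∧ e0 ≤ b / 4 ∧ e0 ≤ 1 / 4 ∧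
      4 * L2 * e0 ≤ 1 ∧ L2 * e0 ≤ ρ / 2 ∧ L2 * e0 ≤ κ * b2 ^ 2 / 4 := by
    refine ⟨min (min (b / 4) (1 / 4)) (min (1 / (4 * L2)) (min (ρ / (2 * L2))
      (κ * b2 ^ 2 / (4 * L2)))), by positivity, ?_, ?_, ?_, ?_, ?_⟩
    · exact (min_le_left _ _).trans (min_le_left _ _)
    · exact (min_le_left _ _).trans (min_le_right _ _)
    · have h1 : min (min (b / 4) (1 / 4)) (min (1 / (4 * L2)) (min (ρ / (2 * L2))
        (κ * b2 ^ 2 / (4 * L2)))) ≤ 1 / (4 * L2) := (min_le_right _ _).trans (min_le_left _ _)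
      calc 4 * L2 * _ ≤ 4 * L2 * (1 / (4 * L2)) := mul_le_mul_of_nonneg_left h1 (by positivity)
        _ = 1 := by field_simp
    · have h1 : min (min (b / 4) (1 / 4)) (min (1 / (4 * L2)) (min (ρ / (2 * L2))
        (κ * b2 ^ 2 / (4 * L2)))) ≤ ρ / (2 * L2) :=
          ((min_le_right _ _).trans (min_le_right _ _)).trans (min_le_left _ _)
      calc L2 * _ ≤ L2 * (ρ / (2 * L2)) := mul_le_mul_of_nonneg_left h1 hL2p.le
        _ = ρ / 2 := by field_simp
    · have h1 : min (min (b / 4) (1 / 4)) (min (1 / (4 * L2)) (min (ρ / (2 * L2))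
        (κ * b2 ^ 2 / (4 * L2)))) ≤ κ * b2 ^ 2 / (4 * L2) :=
          ((min_le_right _ _).trans (min_le_right _ _)).trans (min_le_right _ _)
      calc L2 * _ ≤ L2 * (κ * b2 ^ 2 / (4 * L2)) := mul_le_mul_of_nonneg_left h1 hL2p.le
        _ = κ * b2 ^ 2 / 4 := by field_simp
  -- ρ'
  obtain ⟨r, hr0, hr1, hr2, hr3, hr4, hr5, hr6⟩ : ∃ r : ℝ, 0 < r ∧ r ≤ 1 / 8 ∧
      r ≤ e0 / 2 ∧ 3 * r ≤ κ1 * (e0 / 2) ^ 2 ∧ L2 * r ≤ ρ / 2 ∧
      L2 * r ≤ κ * b2 ^ 2 / 4 ∧ 2 * r ≤ κ * b2 ^ 2 / 4 := by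
    set A : ℝ := 8 + 2 / e0 + 3 / (κ1 * (e0 / 2) ^ 2) + 2 * L2 / ρ +
      4 * L2 / (κ * b2 ^ 2) + 8 / (κ * b2 ^ 2) with hA'
    have q1 : 0 < 2 / e0 := by positivity
    have q2 : 0 < 3 / (κ1 * (e0 / 2) ^ 2) := by positivity
    have q3 : 0 < 2 * L2 / ρ := by positivity
    have q4 : 0 < 4 * L2 / (κ * b2 ^ 2) := by positivity
    have q5 : 0 < 8 / (κ * b2 ^ 2) := by positivity
    have hAp : 0 < A := by positivity
    have key : ∀ x y : ℝ, 0 < y → x / y ≤ A → x * A⁻¹ ≤ y := by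
      intro x y hy h
      rw [div_le_iff₀ hy] at h
      rw [← div_eq_mul_inv, div_le_iff₀ hAp]
      linarith
    refine ⟨A⁻¹, by positivity, ?_, ?_, ?_, ?_, ?_, ?_⟩
    · have := key 1 (1 / 8) (by norm_num) (by norm_num; linarith)
      linarith
    · have := key 1 (e0 / 2) (by positivity) (by
        have : (1 : ℝ) / (e0 / 2) = 2 / e0 := by field_simp
        rw [this]; linarith)
      linarith
    · apply key _ _ (by positivity)
      linarith
    · apply key _ _ (by positivity)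
      have : L2 / (ρ / 2) = 2 * L2 / ρ := by field_simp
      rw [this]; linarith
    · apply key _ _ (by positivity)
      have : L2 / (κ * b2 ^ 2 / 4) = 4 * L2 / (κ * b2 ^ 2) := by field_simp
      rw [this]; linarith
    · apply key _ _ (by positivity)
      have : 2 / (κ * b2 ^ 2 / 4) = 8 / (κ * b2 ^ 2) := by field_simp; norm_num
      rw [this]; linarith
  obtain ⟨F, G, z, hz, hFf, hGg, hFle, hFC⟩ := hSD X f g κ1 r b0 q hκ1p hr0 hQ1 (by
      intro δ hδ
      obtain ⟨x, hx, hx2⟩ := hA δ hδ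
      exact ⟨x, hx, by have := hfA x; linarith⟩) hqs (fun j hj => (hqb j hj).2)
  have hFfy : ∀ y, ‖y‖ ≤ 1 → |F y - f y| ≤ r := by
    intro y hy
    have h1 := (F - f).le_opNorm y
    rw [Real.norm_eq_abs] at h1
    have h2 : ‖F - f‖ * ‖y‖ ≤ r * 1 := mul_le_mul hFf hy (norm_nonneg _) hr0.le
    have h3 : (F - f) y = F y - f y := rfl
    rw [← h3]; linarith
  have hGgy : ∀ y, ‖y‖ ≤ 1 → |G y - g y| ≤ r := by
    intro y hy
    have h1 := (G - g).le_opNorm y
    rw [Real.norm_eq_abs] at h1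
    have h2 : ‖G - g‖ * ‖y‖ ≤ r * 1 := mul_le_mul hGg hy (norm_nonneg _) hr0.le
    have h3 : (G - g) y = G y - g y := rfl
    rw [← h3]; linarith
  have hGnear : ∀ y, ‖y‖ ≤ 1 → |G y| ≤ |g y| + r := by
    intro y hy
    have h1 := hGgy y hy
    have h2 : G y = g y + (G y - g y) := by ring
    calc |G y| = |g y + (G y - g y)| := by rw [← h2]
      _ ≤ |g y| + |G y - g y| := abs_add_le _ _
      _ ≤ _ := by linarith
  have hFz1 : 1 - 2 * r < F z := by
    obtain ⟨x, hx, hx2⟩ := hA r hr0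
    have h1 := hfA x
    have h2 := abs_le.1 (hFfy x hx)
    have h3 := hFle x hx
    linarith [h2.1]
  have hFzp : 1 / 2 ≤ F z := by linarith
  have hFz0 : 0 < F z := by linarith
  have hfz := abs_le.1 (hFfy z hz)
  have hgz : |g z| ≤ e0 / 2 := by
    have h1 := hQ1 z hz
    have h2 : κ1 * (g z) ^ 2 ≤ κ1 * (e0 / 2) ^ 2 := by linarith [hfz.2]
    have h3 : (g z) ^ 2 ≤ (e0 / 2) ^ 2 := le_of_mul_le_mul_left h2 hκ1p
    exact abs_le_of_sq_le_sq h3 (by positivity)
  set ε : ℝ := |G z| with hε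
  have hε0 : 0 ≤ ε := abs_nonneg _
  have hεe : ε ≤ e0 := by
    have h1 := hGnear z hz
    linarith
  have hFz2 : F z ≤ 1 + r := by
    have h1 := hQ1 z hz
    have h2 : 0 ≤ κ1 * (g z) ^ 2 := by positivity
    linarith [hfz.2]
  -- the operator
  set Hz : Y := G z • h with hHz
  set T' : X →L[ℝ] Y := F.smulRight p + G.smulRight h -
    F.smulRight ((F z)⁻¹ • Hz) + π.comp T with hT'
  have hT'y : ∀ y, T' y = F y • p + G y • h - (F y * (F z)⁻¹) • Hz + π (T y) := by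
    intro y
    simp [hT', smul_smul]
  have hhL : ‖h‖ ≤ L2 := by rw [hL2]; linarith
  have hHzn : ‖Hz‖ ≤ L2 * ε := by
    rw [hHz, norm_smul, Real.norm_eq_abs, mul_comm]
    exact mul_le_mul_of_nonneg_right hhL hε0
  have hquot : ∀ y, ‖y‖ ≤ 1 → |F y * (F z)⁻¹| ≤ 1 := by
    intro y hy
    rw [abs_mul, abs_inv, abs_of_pos hFz0, ← div_eq_mul_inv, div_le_one hFz0, abs_le]
    refine ⟨?_, hFle y hy⟩
    have := hFle (-y) (by rwa [norm_neg])
    rw [map_neg] at this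
    linarith
  have hTdiff : ∀ y, ‖y‖ ≤ 1 → ‖T' y - T y‖ ≤ L2 * r + L2 * ε := by
    intro y hy
    have h1 : T' y - T y = (F y - f y) • p + (G y - g y) • h -
        (F y * (F z)⁻¹) • Hz := by
      rw [hT'y]
      have h2 : T y = f y • p + g y • h + π (T y) := hdec (T y)
      nth_rewrite 2 [h2]
      simp only [sub_smul]
      abel
    rw [h1]
    have h3 : ‖(F y - f y) • p‖ ≤ r := by
      rw [norm_smul, hp, mul_one]; exact hFfy y hy
    have h4 : ‖(G y - g y) • h‖ ≤ ‖h‖ * r := by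
      rw [norm_smul, Real.norm_eq_abs, mul_comm]
      exact mul_le_mul_of_nonneg_left (hGgy y hy) (norm_nonneg _)
    have h5 : ‖(F y * (F z)⁻¹) • Hz‖ ≤ L2 * ε := by
      rw [norm_smul, Real.norm_eq_abs]
      calc |F y * (F z)⁻¹| * ‖Hz‖ ≤ 1 * ‖Hz‖ :=
            mul_le_mul_of_nonneg_right (hquot y hy) (norm_nonneg _)
        _ ≤ L2 * ε := by rw [one_mul]; exact hHzn
    calc ‖(F y - f y) • p + (G y - g y) • h - (F y * (F z)⁻¹) • Hz‖
        ≤ ‖(F y - f y) • p + (G y - g y) • h‖ + ‖(F y * (F z)⁻¹) • Hz‖ :=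
          norm_sub_le _ _
      _ ≤ ‖(F y - f y) • p‖ + ‖(G y - g y) • h‖ + ‖(F y * (F z)⁻¹) • Hz‖ := by
          gcongr; exact norm_add_le _ _
      _ ≤ r + ‖h‖ * r + L2 * ε := by gcongr
      _ = L2 * r + L2 * ε := by rw [hL2]; ring
  have hLε : L2 * ε ≤ L2 * e0 := mul_le_mul_of_nonneg_left hεe hL2p.le
  -- the claim
  have hnear : ∀ y, ‖y‖ ≤ 1 → ‖T y - p‖ < b2 → ‖T' y‖ ≤ F z := by
    intro y hy hyb
    have hFy : 1 / 2 ≤ F y := by
      have h1 := hfA y
      have h2 := abs_le.1 (hFfy y hy)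
      linarith [h2.1]
    have hFy0 : 0 < F y := by linarith
    set U : ℝ := |G (y - z)| with hU
    have hU0 : 0 ≤ U := abs_nonneg _
    have hUb : U ≤ b := by
      have h1 : U ≤ |G y| + ε := by
        rw [hU, hε, map_sub]
        exact abs_sub _ _
      have h2 := hGnear y hy
      have h3 := hgm y
      have h4 : L1 * ‖T y - p‖ ≤ L1 * b2 := mul_le_mul_of_nonneg_left hyb.le hL1p.le
      linarith
    set D : ℝ := F z - F y with hD
    have hD0 : 0 ≤ D := by have := hFle y hy; linarith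
    have hD1 : D ≤ 1 := by linarith
    set H : Y := (G (y - z) + D * (F z)⁻¹ * G z) • h with hH
    have hT'H : T' y = F y • p + H + π (T y) := by
      rw [hT'y, add_sub_assoc]
      congr 2
      rw [hH, hHz, smul_smul, ← sub_smul]
      congr 1
      rw [map_sub, hD]
      field_simp
      ring
    set e : Y := (F y)⁻¹ • π (T y) with he
    have heE : (2 : ℝ) • e ∈ E := E.smul_mem _ (E.smul_mem _ (hπE _))
    have hπb : ‖π (T y)‖ ≤ ‖π‖ * b2 := by
      have h1 : π (T y) = π (T y - p) := by rw [map_sub, hπp, sub_zero]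
      rw [h1]
      exact (π.le_opNorm _).trans (mul_le_mul_of_nonneg_left hyb.le (norm_nonneg _))
    have hinv : (F y)⁻¹ ≤ 2 := by
      rw [inv_le_comm₀ hFy0 two_pos]; linarith
    have he2 : ‖(2 : ℝ) • e‖ ≤ δ := by
      rw [norm_smul, he, norm_smul, Real.norm_of_nonneg (inv_nonneg.2 hFy0.le),
        Real.norm_of_nonneg zero_le_two]
      have h1 : (F y)⁻¹ * ‖π (T y)‖ ≤ 2 * (‖π‖ * b2) :=
        mul_le_mul hinv hπb (norm_nonneg _) zero_le_two
      linarith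
    have hpe : ‖p + (2 : ℝ) • e‖ ≤ 1 := (hEw _ heE).2 he2
    have hsplit : ∀ v : Y, F y • p + v + π (T y) =
        F y • ((1 / 2 : ℝ) • (p + (2 : ℝ) • e) + (1 / 2 : ℝ) • (p + (2 : ℝ) • ((F y)⁻¹ • v))) := by
      intro v
      rw [he]
      simp only [smul_add, smul_smul]
      have e1 : F y * (1 / 2 * (2 * (F y)⁻¹)) = 1 := by field_simp
      have e2 : F y * (1 / 2) + F y * (1 / 2) = F y := by ring
      rw [e1, one_smul, one_smul]
      nth_rewrite 1 [← e2]
      rw [add_smul]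
      abel
    have hsplitn : ∀ (v : Y) (r' : ℝ), ‖p + (2 : ℝ) • ((F y)⁻¹ • v)‖ ≤ 1 + r' →
        ‖F y • p + v + π (T y)‖ ≤ F y + F y * (r' / 2) := by
      intro v r' hv
      rw [hsplit v, norm_smul, Real.norm_of_nonneg hFy0.le]
      have h1 : ‖(1 / 2 : ℝ) • (p + (2 : ℝ) • e) + (1 / 2 : ℝ) • (p + (2 : ℝ) • ((F y)⁻¹ • v))‖ ≤
          1 / 2 * 1 + 1 / 2 * (1 + r') := by
        refine (norm_add_le _ _).trans ?_
        rw [norm_smul, norm_smul, Real.norm_of_nonneg (by norm_num : (0 : ℝ) ≤ 1 / 2)]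
        gcongr
      calc F y * _ ≤ F y * (1 / 2 * 1 + 1 / 2 * (1 + r')) := mul_le_mul_of_nonneg_left h1 hFy0.le
        _ = _ := by ring
    have hwH : w H = 0 := by
      rw [hH, map_smul, hwh, smul_zero]
    have hHn : ‖H‖ ≤ L2 * (U + 2 * D * ε) := by
      rw [hH, norm_smul, Real.norm_eq_abs, mul_comm]
      have h8 : |G (y - z) + D * (F z)⁻¹ * G z| ≤ U + 2 * D * ε := by
        refine (abs_add_le _ _).trans ?_
        gcongr
        rw [abs_mul, abs_of_nonneg (by positivity : 0 ≤ D * (F z)⁻¹)]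
        apply mul_le_mul_of_nonneg_right _ (abs_nonneg _)
        have h9 : (F z)⁻¹ ≤ 2 := by
          rw [inv_le_comm₀ hFz0 two_pos]; linarith
        have h10 := mul_le_mul_of_nonneg_left h9 hD0
        rw [mul_comm D 2] at h10
        exact h10
      exact mul_le_mul hhL h8 (abs_nonneg _) hL2p.le
    rw [hT'H]
    by_cases hcase : U ≤ 2 * D * ε
    · have h1 : ‖H‖ ≤ L2 * (4 * D * ε) := by
        refine hHn.trans (mul_le_mul_of_nonneg_left (by linarith) hL2p.le)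
      have h2 : L2 * (4 * D * ε) ≤ D := by
        have h3 : 4 * L2 * ε ≤ 1 := by nlinarith
        calc L2 * (4 * D * ε) = D * (4 * L2 * ε) := by ring
          _ ≤ D * 1 := mul_le_mul_of_nonneg_left h3 hD0
          _ = D := mul_one _
      have h3 := hsplitn H (2 * (F y)⁻¹ * ‖H‖) (by
        refine (norm_add_le _ _).trans ?_
        rw [hp, norm_smul, norm_smul, Real.norm_of_nonneg (inv_nonneg.2 hFy0.le),
          Real.norm_of_nonneg zero_le_two]
        linarith)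
      have h4 : F y * (2 * (F y)⁻¹ * ‖H‖ / 2) = ‖H‖ := by field_simp
      linarith
    · push Not at hcase
      have hUp : 0 < U := lt_of_le_of_lt (by positivity) hcase
      have hU1 : U ≤ 1 := hUb.trans (by
        rw [hbdef]; exact pow_le_one₀ (by norm_num) (by norm_num))
      obtain ⟨j, hj1, hj2⟩ := exists_nat_pow_near_of_lt_one hUp hU1
        (by norm_num : (0 : ℝ) < 1 / 2) (by norm_num : (1 / 2 : ℝ) < 1)
      have hjb : b0 ≤ j := by
        by_contra hcon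
        push Not at hcon
        have h1 : (1 / 2 : ℝ) ^ b0 ≤ (1 / 2) ^ (j + 1) :=
          pow_le_pow_of_le_one (by norm_num) (by norm_num) hcon
        have h2 : U ≤ (1 / 2 : ℝ) ^ b0 := hUb
        linarith
      have hDj := hFC j hjb y hy hj1 hj2
      rw [map_sub] at hDj
      obtain ⟨i, hi⟩ : ∃ i, j = i + l := ⟨j - l, by omega⟩
      have hq := (hqb j hjb).1
      have hji : j - l = i := by omega
      rw [hji] at hq
      have hHU : ‖H‖ ≤ 2 * L2 * U := by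
        refine hHn.trans ?_
        calc L2 * (U + 2 * D * ε) ≤ L2 * (2 * U) :=
              mul_le_mul_of_nonneg_left (by linarith) hL2p.le
          _ = 2 * L2 * U := by ring
      have hh' : ‖(2 : ℝ) • ((F y)⁻¹ • H)‖ ≤ (1 / 2) ^ i := by
        rw [norm_smul, norm_smul, Real.norm_of_nonneg (inv_nonneg.2 hFy0.le),
          Real.norm_of_nonneg zero_le_two]
        calc 2 * ((F y)⁻¹ * ‖H‖) ≤ 2 * (2 * (2 * L2 * U)) :=
              mul_le_mul_of_nonneg_left (mul_le_mul hinv hHU (norm_nonneg _) (by norm_num))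
                zero_le_two
          _ = 8 * L2 * U := by ring
          _ ≤ 2 ^ l * (1 / 2) ^ j := mul_le_mul hl hj2 hU0 (by positivity)
          _ = (1 / 2) ^ i := by
              rw [hi, pow_add, mul_comm ((1 / 2 : ℝ) ^ i), ← mul_assoc, ← mul_pow]
              norm_num
      have hest := hflat i ((2 : ℝ) • ((F y)⁻¹ • H)) (by
        rw [map_smul, map_smul, hwH, smul_zero, smul_zero]) hh'
      have hFy2 : F y ≤ 2 := by linarith
      have h1 := hsplitn H _ hest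
      have h14 : (1 / 4 : ℝ) ^ i = 4 ^ l * (1 / 4) ^ j := by
        rw [hi, pow_add, mul_comm ((1 / 4 : ℝ) ^ i), ← mul_assoc, ← mul_pow]
        norm_num
      have hai : 0 ≤ a i * (1 / 4 : ℝ) ^ i := mul_nonneg (ha0 i) (by positivity)
      have h3 : F y * (a i * (1 / 4 : ℝ) ^ i) ≤ 2 * (a i * (1 / 4 : ℝ) ^ i) :=
        mul_le_mul_of_nonneg_right hFy2 hai
      have h4 : 2 * (a i * (1 / 4 : ℝ) ^ i) ≤ (1 / 2) ^ q j * (1 / 4) ^ (j + 1) := by
        rw [h14]
        have h5 : 8 * 4 ^ l * a i * ((1 / 4 : ℝ) ^ j / 4) ≤ (1 / 2) ^ q j * ((1 / 4 : ℝ) ^ j / 4) :=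
          mul_le_mul_of_nonneg_right hq (by positivity)
        rw [pow_succ]
        linarith
      linarith
  have hclaim : ∀ y, ‖y‖ ≤ 1 → ‖T' y‖ ≤ F z := by
    intro y hy
    by_cases h1 : ‖T y - p‖ < b2
    · exact hnear y hy h1
    by_cases h2 : ‖T y + p‖ < b2
    · have h3 := hnear (-y) (by rwa [norm_neg]) (by
        rw [map_neg, ← neg_add', norm_neg]; exact h2)
      rwa [map_neg, norm_neg] at h3
    · push Not at h1 h2
      have h3 := hQ y hy
      have h4 : b2 ≤ min ‖T y - p‖ ‖T y + p‖ := le_min h1 h2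
      have h5 : κ * b2 ^ 2 ≤ κ * min ‖T y - p‖ ‖T y + p‖ ^ 2 :=
        mul_le_mul_of_nonneg_left (pow_le_pow_left₀ hb2p.le h4 2) hκ.le
      have h6 := hTdiff y hy
      have h7 : ‖T' y‖ ≤ ‖T y‖ + ‖T' y - T y‖ := by
        have : T' y = T y + (T' y - T y) := by abel
        calc ‖T' y‖ = ‖T y + (T' y - T y)‖ := by rw [← this]
          _ ≤ _ := norm_add_le _ _
      linarith
  have hT'z : T' z = F z • p + π (T z) := by
    rw [hT'y, mul_inv_cancel₀ hFz0.ne', one_smul]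
    simp [hHz]
  have hnormz : ‖T' z‖ = F z := by
    apply le_antisymm (hclaim z hz)
    have h1 : w (T' z) = F z := by
      rw [hT'z, map_add, map_smul, hwp, (hEw _ (hπE _)).1]
      simp
    have h2 := w.le_opNorm (T' z)
    have h3 : w (T' z) ≤ ‖w (T' z)‖ := Real.le_norm_self _
    have h4 : ‖w‖ * ‖T' z‖ ≤ 1 * ‖T' z‖ := mul_le_mul_of_nonneg_right hw1 (norm_nonneg _)
    linarith
  have hnorm : ‖T'‖ = F z := by
    apply le_antisymm
    · apply ContinuousLinearMap.opNorm_le_of_unit_norm hFz0.le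
      intro x hx
      exact hclaim x hx.le
    · have h1 := T'.le_opNorm z
      rw [hnormz] at h1
      have h2 : ‖T'‖ * ‖z‖ ≤ ‖T'‖ * 1 := mul_le_mul_of_nonneg_left hz (norm_nonneg _)
      linarith
  refine ⟨T', ?_, z, ?_, ?_⟩
  · apply ContinuousLinearMap.opNorm_le_of_unit_norm hρ.le
    intro x hx
    have h1 := hTdiff x hx.le
    change ‖T' x - T x‖ ≤ ρ
    linarith
  · apply le_antisymm hz
    have h1 := T'.le_opNorm z
    rw [hnormz, hnorm] at h1
    by_contra hc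
    push Not at hc
    have h2 := mul_lt_mul_of_pos_left hc hFz0
    rw [mul_one] at h2
    exact absurd h1 (not_le.2 h2)
  · rw [hnormz, hnorm]

end Pool.Agent.Helper36.Sq
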