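import Pool.Agent.Helper36.Sq.Goals

/-! LIM: the limit of a path. -/

set_option autoImplicit false

open Filter Topology Finset

namespace Pool.Agent.Helper36.Sq

universe u

theorem lim_alg {X : Type u} [NormedAddCommGroup X] [NormedSpace ℝ X]
    (F G f g : X →L[ℝ] ℝ) (z x : X) (σ m h Λ : ℝ) (hh : 0 < h) (_hΛ : 0 ≤ Λ)
    (hz : ‖z‖ ≤ 1) (hx : ‖x‖ ≤ 1) (hσ : |σ - m| ≤ h) (hG : ‖G - g‖ ≤ 2 * h)
    (hF : ‖F - (f + σ • g)‖ ≤ 2 * h ^ 2) (hFx : F x ≤ F z)
    (he : ‖f + (m + h) • g‖ + ‖f + (m - h) • g‖ - 2 * (f + m • g) x ≤ Λ * h ^ 2) (a b : ℝ)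
    (ha : a = σ - (m - h)) (hb : b = m + h - σ) :
    a * (‖F + b • G‖ - (F + b • G) z) ≤ (Λ + 12) * h ^ 2 * (2 * h) ∧
      b * (‖F - a • G‖ - (F - a • G) z) ≤ (Λ + 12) * h ^ 2 * (2 * h) := by
  have hσ1 := abs_le.1 hσ
  have ha0 : 0 ≤ a := by rw [ha]; linarith [hσ1.1]
  have hb0 : 0 ≤ b := by rw [hb]; linarith [hσ1.2]
  have hab : a + b = 2 * h := by rw [ha, hb]; ring
  set P : X →L[ℝ] ℝ := f + (m + h) • g with hP
  set M : X →L[ℝ] ℝ := f + (m - h) • g with hM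
  have hPx : P x ≤ ‖P‖ := by
    have h1 := P.le_opNorm x
    have h2 : P x ≤ ‖P x‖ := Real.le_norm_self _
    have h3 : ‖P‖ * ‖x‖ ≤ ‖P‖ * 1 := mul_le_mul_of_nonneg_left hx (norm_nonneg _)
    linarith
  have hMx : M x ≤ ‖M‖ := by
    have h1 := M.le_opNorm x
    have h2 : M x ≤ ‖M x‖ := Real.le_norm_self _
    have h3 : ‖M‖ * ‖x‖ ≤ ‖M‖ * 1 := mul_le_mul_of_nonneg_left hx (norm_nonneg _)
    linarith
  have hsum : P x + M x = 2 * (f + m • g) x := by
    simp only [hP, hM, _root_.add_apply, _root_.smul_apply, smul_eq_mul]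
    ring
  have hσx : 2 * h * (f + σ • g) x = a * P x + b * M x := by
    simp only [hP, hM, _root_.add_apply, _root_.smul_apply, smul_eq_mul,
      ha, hb]
    ring
  have hFx2 : (f + σ • g) x ≤ F x + 2 * h ^ 2 := by
    have h1 := (F - (f + σ • g)).le_opNorm x
    rw [Real.norm_eq_abs] at h1
    have h2 := neg_abs_le ((F - (f + σ • g)) x)
    have h3 : ‖F - (f + σ • g)‖ * ‖x‖ ≤ 2 * h ^ 2 * 1 :=
      mul_le_mul hF hx (norm_nonneg _) (by positivity)
    have h4 : (F - (f + σ • g)) x = F x - (f + σ • g) x := rfl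
    rw [h4] at h1 h2
    linarith
  have hN : a * ‖P‖ + b * ‖M‖ ≤ 2 * h * F z + 2 * h * (Λ + 2) * h ^ 2 := by
    have h1 : a * (‖P‖ - P x) + b * (‖M‖ - M x) ≤ 2 * h * (Λ * h ^ 2) := by
      have h2 : a * (‖P‖ - P x) ≤ 2 * h * (‖P‖ - P x) :=
        mul_le_mul_of_nonneg_right (by linarith) (by linarith)
      have h3 : b * (‖M‖ - M x) ≤ 2 * h * (‖M‖ - M x) :=
        mul_le_mul_of_nonneg_right (by linarith) (by linarith)
      have h4 : 2 * h * ((‖P‖ - P x) + (‖M‖ - M x)) ≤ 2 * h * (Λ * h ^ 2) :=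
        mul_le_mul_of_nonneg_left (by linarith) (by positivity)
      linarith
    have h5 : 2 * h * (f + σ • g) x ≤ 2 * h * (F z + 2 * h ^ 2) :=
      mul_le_mul_of_nonneg_left (by linarith) (by positivity)
    nlinarith
  have hPF : ‖F + b • G‖ ≤ ‖P‖ + 6 * h ^ 2 := by
    have h1 : F + b • G = P + ((F - (f + σ • g)) + b • (G - g)) := by
      ext y
      simp only [hP, _root_.add_apply, _root_.smul_apply,
        _root_.sub_apply, smul_eq_mul, hb]
      ring
    rw [h1]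
    have h2 : ‖b • (G - g)‖ ≤ 2 * h * (2 * h) := by
      rw [norm_smul, Real.norm_of_nonneg hb0]
      exact mul_le_mul (by linarith) hG (norm_nonneg _) (by positivity)
    have h3 := norm_add_le P ((F - (f + σ • g)) + b • (G - g))
    have h4 := norm_add_le (F - (f + σ • g)) (b • (G - g))
    nlinarith
  have hMF : ‖F - a • G‖ ≤ ‖M‖ + 6 * h ^ 2 := by
    have h1 : F - a • G = M + ((F - (f + σ • g)) - a • (G - g)) := by
      ext y
      simp only [hM, _root_.add_apply, _root_.smul_apply,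
        _root_.sub_apply, smul_eq_mul, ha]
      ring
    rw [h1]
    have h2 : ‖a • (G - g)‖ ≤ 2 * h * (2 * h) := by
      rw [norm_smul, Real.norm_of_nonneg ha0]
      exact mul_le_mul (by linarith) hG (norm_nonneg _) (by positivity)
    have h3 := norm_add_le M ((F - (f + σ • g)) - a • (G - g))
    have h4 := norm_sub_le (F - (f + σ • g)) (a • (G - g))
    nlinarith
  have hzP : F z + b * G z ≤ ‖F + b • G‖ := by
    have h1 := (F + b • G).le_opNorm z
    have h2 : (F + b • G) z ≤ ‖(F + b • G) z‖ := Real.le_norm_self _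
    have h3 : ‖F + b • G‖ * ‖z‖ ≤ ‖F + b • G‖ * 1 := mul_le_mul_of_nonneg_left hz (norm_nonneg _)
    have h4 : (F + b • G) z = F z + b * G z := by simp
    linarith
  have hzM : F z - a * G z ≤ ‖F - a • G‖ := by
    have h1 := (F - a • G).le_opNorm z
    have h2 : (F - a • G) z ≤ ‖(F - a • G) z‖ := Real.le_norm_self _
    have h3 : ‖F - a • G‖ * ‖z‖ ≤ ‖F - a • G‖ * 1 := mul_le_mul_of_nonneg_left hz (norm_nonneg _)
    have h4 : (F - a • G) z = F z - a * G z := by simp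
    linarith
  have e1 : (F + b • G) z = F z + b * G z := by simp
  have e2 : (F - a • G) z = F z - a * G z := by simp
  rw [e1, e2]
  have k1 : b * (F z - a * G z) ≤ b * (‖M‖ + 6 * h ^ 2) :=
    mul_le_mul_of_nonneg_left (by linarith) hb0
  have k2 : a * ‖F + b • G‖ ≤ a * (‖P‖ + 6 * h ^ 2) := mul_le_mul_of_nonneg_left hPF ha0
  have k3 : a * (F z + b * G z) ≤ a * (‖P‖ + 6 * h ^ 2) :=
    mul_le_mul_of_nonneg_left (by linarith) ha0
  have k4 : b * ‖F - a • G‖ ≤ b * (‖M‖ + 6 * h ^ 2) := mul_le_mul_of_nonneg_left hMF hb0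
  have k5 : (a + b) * (6 * h ^ 2) = 12 * h ^ 3 := by rw [hab]; ring
  have k6 : (a + b) * F z = 2 * h * F z := by rw [hab]
  have k7 : 0 ≤ h ^ 3 := by positivity
  constructor
  · nlinarith
  · nlinarith

theorem gLim : GLim.{u} := by
  intro X _ _ _ st w H Λ hP
  have H0 := hP.H0
  have hpow : ∀ k : ℕ, H / 2 ^ k = H * (1 / 2) ^ k := by
    intro k
    rw [one_div, inv_pow, div_eq_mul_inv]
  have hhpos : ∀ k : ℕ, 0 < H / 2 ^ k := fun k => by positivity
  -- centres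
  have hm1 : ∀ k, dist (st k).m (st (k + 1)).m ≤ H / 2 * (1 / 2) ^ k := by
    intro k
    rw [dist_comm, Real.dist_eq, hP.hm k, add_sub_cancel_left, abs_mul]
    have h1 : |((w k : ℕ) : ℝ) - 1| ≤ 1 := by
      have h2 : ((w k : ℕ) : ℝ) ≤ 2 := by
        have := (w k).is_lt
        exact_mod_cast Nat.lt_succ_iff.1 this
      have h3 : (0 : ℝ) ≤ ((w k : ℕ) : ℝ) := Nat.cast_nonneg _
      rw [abs_le]
      constructor <;> linarith
    have h4 : |H / 2 ^ k / 2| = H / 2 * (1 / 2) ^ k := by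
      rw [abs_of_nonneg (by positivity), hpow k]
      ring
    rw [h4]
    calc |((w k : ℕ) : ℝ) - 1| * (H / 2 * (1 / 2) ^ k) ≤ 1 * (H / 2 * (1 / 2) ^ k) :=
          mul_le_mul_of_nonneg_right h1 (by positivity)
      _ = _ := one_mul _
  obtain ⟨σ, hσ⟩ := cauchySeq_tendsto_of_complete
    (cauchySeq_of_le_geometric (1 / 2 : ℝ) (H / 2) (by norm_num) hm1)
  have hσk : ∀ k, |σ - (st k).m| ≤ H / 2 ^ k := by
    intro k
    have h1 := dist_le_of_le_geometric_of_tendsto (1 / 2 : ℝ) (H / 2) (by norm_num) hm1 hσ k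
    rw [← Real.dist_eq, dist_comm, hpow k]
    refine h1.trans (le_of_eq ?_)
    ring
  -- `g`
  have hg1 : ∀ k, dist (st k).g (st (k + 1)).g ≤ H * (1 / 2) ^ k := by
    intro k
    rw [dist_comm, dist_eq_norm, ← hpow k]
    exact hP.hg k
  obtain ⟨G, hG⟩ := cauchySeq_tendsto_of_complete
    (cauchySeq_of_le_geometric (1 / 2 : ℝ) H (by norm_num) hg1)
  have hGk : ∀ k, ‖G - (st k).g‖ ≤ 2 * (H / 2 ^ k) := by
    intro k
    have h1 := dist_le_of_le_geometric_of_tendsto (1 / 2 : ℝ) H (by norm_num) hg1 hG k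
    rw [← dist_eq_norm, dist_comm, hpow k]
    refine h1.trans (le_of_eq ?_)
    ring
  -- `f`
  have hf1 : ∀ k, dist ((st k).f + σ • (st k).g) ((st (k + 1)).f + σ • (st (k + 1)).g) ≤
      H ^ 2 * (1 / 4) ^ k := by
    intro k
    rw [dist_comm, dist_eq_norm]
    have h1 : (st (k + 1)).f + σ • (st (k + 1)).g - ((st k).f + σ • (st k).g) =
        ((st (k + 1)).f + (st (k + 1)).m • (st (k + 1)).g -
          ((st k).f + (st (k + 1)).m • (st k).g)) +
        (σ - (st (k + 1)).m) • ((st (k + 1)).g - (st k).g) := by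
      ext y
      simp
      ring
    rw [h1]
    refine (norm_add_le _ _).trans ?_
    rw [norm_smul, Real.norm_eq_abs]
    have h2 : |σ - (st (k + 1)).m| * ‖(st (k + 1)).g - (st k).g‖ ≤
        H / 2 ^ (k + 1) * (H / 2 ^ k) :=
      mul_le_mul (hσk (k + 1)) (hP.hg k) (norm_nonneg _) (by positivity)
    have h3 := hP.hf k
    have h4 : (H / 2 ^ k) ^ 2 / 2 + H / 2 ^ (k + 1) * (H / 2 ^ k) = H ^ 2 * (1 / 4) ^ k := by
      have h5 : (1 / 4 : ℝ) ^ k = (1 / 2 ^ k) ^ 2 := by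
        rw [one_div, one_div, inv_pow, inv_pow, ← pow_mul, mul_comm k 2, pow_mul]
        norm_num
      rw [h5, pow_succ]
      field_simp
      ring
    linarith
  obtain ⟨F, hF⟩ := cauchySeq_tendsto_of_complete
    (cauchySeq_of_le_geometric (1 / 4 : ℝ) (H ^ 2) (by norm_num) hf1)
  have hFk : ∀ k, ‖F - ((st k).f + σ • (st k).g)‖ ≤ 2 * (H / 2 ^ k) ^ 2 := by
    intro k
    have h1 := dist_le_of_le_geometric_of_tendsto (1 / 4 : ℝ) (H ^ 2) (by norm_num) hf1 hF k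
    rw [← dist_eq_norm, dist_comm]
    refine h1.trans ?_
    have h5 : (1 / 4 : ℝ) ^ k = (1 / 2 ^ k) ^ 2 := by
      rw [one_div, one_div, inv_pow, inv_pow, ← pow_mul, mul_comm k 2, pow_mul]
      norm_num
    rw [h5]
    have h6 : H ^ 2 * (1 / 2 ^ k) ^ 2 = (H / 2 ^ k) ^ 2 := by
      rw [div_pow, div_pow]
      ring
    rw [h6]
    have h7 : 0 ≤ (H / 2 ^ k) ^ 2 := by positivity
    rw [div_le_iff₀ (by norm_num)]
    linarith
  -- `x`
  have hsum : Summable (fun i => dist (st i).x (st (i + 1)).x) := by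
    refine summable_of_sum_range_le (c := Λ) (fun _ => dist_nonneg) ?_
    intro n
    have h1 := hP.hd n
    refine le_trans (le_of_eq ?_) h1
    refine sum_congr rfl ?_
    intro i _
    rw [dist_comm, dist_eq_norm]
  obtain ⟨z, hz⟩ := cauchySeq_tendsto_of_complete (cauchySeq_of_summable_dist hsum)
  have hz1 : ‖z‖ ≤ 1 :=
    le_of_tendsto' (hz.norm) (fun k => hP.hx k)
  -- `‖F‖ ≤ F z`
  have hpow0 : Tendsto (fun k : ℕ => H / 2 ^ k) atTop (𝓝 0) := by
    have h1 : Tendsto (fun k : ℕ => H * (1 / 2 : ℝ) ^ k) atTop (𝓝 (H * 0)) :=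
      (tendsto_pow_atTop_nhds_zero_of_lt_one (by norm_num) (by norm_num)).const_mul H
    rw [mul_zero] at h1
    refine h1.congr (fun k => (hpow k).symm)
  have hen : ∀ k, ‖(st k).f + ((st k).m + H / 2 ^ k) • (st k).g‖ +
      ‖(st k).f + ((st k).m - H / 2 ^ k) • (st k).g‖ -
        2 * ((st k).f + (st k).m • (st k).g) (st k).x ≤ Λ * (H / 2 ^ k) ^ 2 := by
    intro k
    have h1 := hP.he k
    rw [div_le_iff₀ (by have := hhpos k; positivity)] at h1
    unfold en at h1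
    linarith
  have hkey : ∀ k, ‖F‖ ≤ F (st k).x + (4 + Λ) * (H / 2 ^ k) ^ 2 +
      2 * (H / 2 ^ k) * (‖G‖ + 2 * H) := by
    intro k
    set h := H / 2 ^ k with hh
    have hh0 : 0 < h := hhpos k
    have hhH : h ≤ H := by
      rw [hh]
      exact div_le_self H0.le (one_le_pow₀ (by norm_num))
    set S := st k with hS
    have hgn : ‖S.g‖ ≤ ‖G‖ + 2 * H := by
      have h1 : S.g = G - (G - S.g) := by abel
      have h2 := norm_sub_le G (G - S.g)
      rw [← h1] at h2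
      have h3 := hGk k
      linarith
    have hσ1 := abs_le.1 (hσk k)
    have hend : ∀ t : ℝ, |σ - t| ≤ 2 * h → ‖F‖ - 2 * h ^ 2 - 2 * h * (‖G‖ + 2 * H) ≤
        ‖S.f + t • S.g‖ := by
      intro t ht
      have h1 : F = (S.f + t • S.g) + ((F - (S.f + σ • S.g)) + (σ - t) • S.g) := by
        ext y
        simp
        ring
      have h2 := norm_add_le (S.f + t • S.g) ((F - (S.f + σ • S.g)) + (σ - t) • S.g)
      rw [← h1] at h2
      have h3 := norm_add_le (F - (S.f + σ • S.g)) ((σ - t) • S.g)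
      rw [norm_smul, Real.norm_eq_abs] at h3
      have h4 : |σ - t| * ‖S.g‖ ≤ 2 * h * (‖G‖ + 2 * H) :=
        mul_le_mul ht hgn (norm_nonneg _) (by positivity)
      have h5 := hFk k
      linarith
    have hp := hend (S.m + h) (by rw [abs_le]; constructor <;> linarith [hσ1.1, hσ1.2])
    have hm' := hend (S.m - h) (by rw [abs_le]; constructor <;> linarith [hσ1.1, hσ1.2])
    have he := hen k
    have hxk := hP.hx k
    -- `f_σ x` is a convex combination
    have hPx : (S.f + (S.m + h) • S.g) S.x ≤ ‖S.f + (S.m + h) • S.g‖ := by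
      have h1 := (S.f + (S.m + h) • S.g).le_opNorm S.x
      have h2 : (S.f + (S.m + h) • S.g) S.x ≤ ‖(S.f + (S.m + h) • S.g) S.x‖ := Real.le_norm_self _
      have h3 : ‖S.f + (S.m + h) • S.g‖ * ‖S.x‖ ≤ ‖S.f + (S.m + h) • S.g‖ * 1 :=
        mul_le_mul_of_nonneg_left hxk (norm_nonneg _)
      linarith
    have hMx : (S.f + (S.m - h) • S.g) S.x ≤ ‖S.f + (S.m - h) • S.g‖ := by
      have h1 := (S.f + (S.m - h) • S.g).le_opNorm S.x
      have h2 : (S.f + (S.m - h) • S.g) S.x ≤ ‖(S.f + (S.m - h) • S.g) S.x‖ := Real.le_norm_self _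
      have h3 : ‖S.f + (S.m - h) • S.g‖ * ‖S.x‖ ≤ ‖S.f + (S.m - h) • S.g‖ * 1 :=
        mul_le_mul_of_nonneg_left hxk (norm_nonneg _)
      linarith
    have hsum2 : (S.f + (S.m + h) • S.g) S.x + (S.f + (S.m - h) • S.g) S.x =
        2 * (S.f + S.m • S.g) S.x := by
      simp only [_root_.add_apply, _root_.smul_apply, smul_eq_mul]
      ring
    have hpl : ‖F‖ - 2 * h ^ 2 - 2 * h * (‖G‖ + 2 * H) - Λ * h ^ 2 ≤
        (S.f + (S.m + h) • S.g) S.x := by linarith
    have hml : ‖F‖ - 2 * h ^ 2 - 2 * h * (‖G‖ + 2 * H) - Λ * h ^ 2 ≤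
        (S.f + (S.m - h) • S.g) S.x := by linarith
    have hconv : 2 * h * (S.f + σ • S.g) S.x = (σ - (S.m - h)) * (S.f + (S.m + h) • S.g) S.x +
        (S.m + h - σ) * (S.f + (S.m - h) • S.g) S.x := by
      simp only [_root_.add_apply, _root_.smul_apply, smul_eq_mul]
      ring
    have hσx : ‖F‖ - 2 * h ^ 2 - 2 * h * (‖G‖ + 2 * H) - Λ * h ^ 2 ≤ (S.f + σ • S.g) S.x := by
      have h1 := mul_le_mul_of_nonneg_left hpl (by linarith [hσ1.1] : 0 ≤ σ - (S.m - h))
      have h2 := mul_le_mul_of_nonneg_left hml (by linarith [hσ1.2] : 0 ≤ S.m + h - σ)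
      have h3 : 2 * h * (‖F‖ - 2 * h ^ 2 - 2 * h * (‖G‖ + 2 * H) - Λ * h ^ 2) ≤
          2 * h * (S.f + σ • S.g) S.x := by
        rw [hconv]
        refine le_trans (le_of_eq ?_) (add_le_add h1 h2)
        ring
      exact le_of_mul_le_mul_left h3 (by positivity)
    have hFx2 : (S.f + σ • S.g) S.x ≤ F S.x + 2 * h ^ 2 := by
      have h1 := (F - (S.f + σ • S.g)).le_opNorm S.x
      rw [Real.norm_eq_abs] at h1
      have h2 := neg_abs_le ((F - (S.f + σ • S.g)) S.x)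
      have h3 : ‖F - (S.f + σ • S.g)‖ * ‖S.x‖ ≤ 2 * h ^ 2 * 1 :=
        mul_le_mul (hFk k) hxk (norm_nonneg _) (by positivity)
      have h4 : (F - (S.f + σ • S.g)) S.x = F S.x - (S.f + σ • S.g) S.x := rfl
      rw [h4] at h1 h2
      linarith
    linarith
  have hFz : ‖F‖ ≤ F z := by
    have h1 : Tendsto (fun k => F (st k).x + (4 + Λ) * (H / 2 ^ k) ^ 2 +
        2 * (H / 2 ^ k) * (‖G‖ + 2 * H)) atTop
        (𝓝 (F z + (4 + Λ) * 0 ^ 2 + 2 * 0 * (‖G‖ + 2 * H))) :=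
      (((F.continuous.tendsto z).comp hz).add ((hpow0.pow 2).const_mul _)).add
        ((hpow0.const_mul 2).mul_const _)
    have h2 := ge_of_tendsto' h1 hkey
    simpa using h2
  have hFle : ∀ y : X, ‖y‖ ≤ 1 → F y ≤ F z := by
    intro y hy
    have h1 := F.le_opNorm y
    have h2 : F y ≤ ‖F y‖ := Real.le_norm_self _
    have h3 : ‖F‖ * ‖y‖ ≤ ‖F‖ * 1 := mul_le_mul_of_nonneg_left hy (norm_nonneg _)
    linarith
  refine ⟨F, G, z, σ, hz1, hσk, hGk, hFk, hFle, ?_⟩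
  intro k a b ha hb
  exact lim_alg F G (st k).f (st k).g z (st k).x σ (st k).m (H / 2 ^ k) Λ (hhpos k) hP.L0 hz1
    (hP.hx k) (hσk k) (hGk k) (hFk k) (hFle _ (hP.hx k)) (hen k) a b ha hb

end Pool.Agent.Helper36.Sq
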