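import Pool.Agent.Helper36.Sq.SD
import Pool.Agent.Helper36.Sq.CritR
import Pool.Agent.Helper36.Sq.LIM
import Pool.Agent.Helper18.PB2.Crit
import Pool.Agent.Helper13.Sq.STEP
import Pool.Agent.Helper25.Sq.SEL
import Pool.Agent.Helper4.Sq.GEO
import Pool.Agent.Helper57.Sq.SEQ

/-! The main theorem. -/

set_option autoImplicit false

open MeasureTheory Measure

namespace Pool.Agent.Helper36.Sq

universe u v

theorem main_of (hLim : GLim.{u}) : FinalR.{u, v} :=
  finalR (Helper4.PB.e2 Helper59.PB.e1)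
    (gFinR (gSD Helper13.Sq.gStep Helper25.Sq.gSel hLim Helper4.Sq.gGeo) Helper57.Sq.gSeq)

theorem main : FinalR.{u, v} := main_of gLim

end Pool.Agent.Helper36.Sq
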