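import Pool.Agent.Helper36.Sq.Goals

/-! SD: the scheme. -/

set_option autoImplicit false

open MeasureTheory Measure Finset

namespace Pool.Agent.Helper36.Sq

universe u v

variable {X : Type u} [NormedAddCommGroup X] [NormedSpace ℝ X]

theorem le_opNorm_ball (f : X →L[ℝ] ℝ) {x : X} (hx : ‖x‖ ≤ 1) : f x ≤ ‖f‖ := by
  have h1 := f.le_opNorm x
  have h2 : f x ≤ ‖f x‖ := Real.le_norm_self _
  have h3 : ‖f‖ * ‖x‖ ≤ ‖f‖ * 1 := mul_le_mul_of_nonneg_left hx (norm_nonneg _)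
  linarith

theorem abs_le_opNorm_ball (f : X →L[ℝ] ℝ) {x : X} (hx : ‖x‖ ≤ 1) : |f x| ≤ ‖f‖ := by
  have h1 := f.le_opNorm x
  rw [Real.norm_eq_abs] at h1
  have h3 : ‖f‖ * ‖x‖ ≤ ‖f‖ * 1 := mul_le_mul_of_nonneg_left hx (norm_nonneg _)
  linarith

theorem en_nonneg (S : St X) (h : ℝ) (hx : ‖S.x‖ ≤ 1) : 0 ≤ en S h := by
  have h1 := le_opNorm_ball (S.f + (S.m + h) • S.g) hx
  have h2 := le_opNorm_ball (S.f + (S.m - h) • S.g) hx
  unfold en
  simp only [_root_.add_apply, _root_.smul_apply, smul_eq_mul] at *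
  linarith

theorem norm_pair_le (f g : X →L[ℝ] ℝ) {κ : ℝ} (hκ : 0 < κ)
    (hQ : ∀ y : X, ‖y‖ ≤ 1 → f y + κ * (g y) ^ 2 ≤ 1) (s : ℝ) :
    ‖f + s • g‖ ≤ 1 + s ^ 2 / (4 * κ) := by
  have key : ∀ y : X, ‖y‖ ≤ 1 → f y + s * g y ≤ 1 + s ^ 2 / (4 * κ) := by
    intro y hy
    have h1 := hQ y hy
    have h2 : s * g y ≤ κ * (g y) ^ 2 + s ^ 2 / (4 * κ) := by
      have h3 : 0 ≤ (2 * κ * g y - s) ^ 2 / (4 * κ) := by positivity
      have h4 : (2 * κ * g y - s) ^ 2 / (4 * κ) = κ * (g y) ^ 2 - s * g y + s ^ 2 / (4 * κ) := by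
        field_simp
        ring
      linarith
    linarith
  apply ContinuousLinearMap.opNorm_le_of_unit_norm (by positivity)
  intro x hx
  rw [Real.norm_eq_abs, abs_le]
  simp only [_root_.add_apply, _root_.smul_apply, smul_eq_mul]
  constructor
  · have := key (-x) (by rw [norm_neg]; exact hx.le)
    rw [map_neg, map_neg] at this
    linarith
  · exact key x hx.le

/-- choice of the constants -/
theorem exists_consts (ρ G0 : ℝ) (q : ℕ → ℕ) (c : ℕ) (hρ : 0 < ρ)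
    (hsum : Summable (fun j => (1 / 4 : ℝ) ^ q j)) :
    ∃ N : ℕ, 2 * ((1 / 2 : ℝ) ^ (N + c)) ^ 2 + (1 / 2) ^ (N + c) * G0 ≤ ρ ∧
      2 * (1 / 2 : ℝ) ^ (N + c) ≤ ρ ∧ Summable (fun j => (1 / 4 : ℝ) ^ (q (j + N) - c)) ∧
      2 * ∑' j, (1 / 4 : ℝ) ^ (q (j + N) - c) ≤ 1 / 4 := by
  have hle : ∀ i, (1 / 4 : ℝ) ^ (q i - c) ≤ 4 ^ c * (1 / 4) ^ q i := by
    intro i
    have h1 : (1 / 4 : ℝ) ^ (q i - c + c) ≤ (1 / 4) ^ q i :=
      pow_le_pow_of_le_one (by norm_num) (by norm_num) (by omega)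
    rw [pow_add] at h1
    have h2 : (1 / 4 : ℝ) ^ c * 4 ^ c = 1 := by
      rw [← mul_pow]; norm_num
    have h3 : (0 : ℝ) < 4 ^ c := by positivity
    calc (1 / 4 : ℝ) ^ (q i - c) = (1 / 4 : ℝ) ^ (q i - c) * ((1 / 4 : ℝ) ^ c * 4 ^ c) := by
          rw [h2, mul_one]
      _ = 4 ^ c * ((1 / 4 : ℝ) ^ (q i - c) * (1 / 4 : ℝ) ^ c) := by ring
      _ ≤ 4 ^ c * (1 / 4) ^ q i := mul_le_mul_of_nonneg_left h1 h3.le
  have ht := tendsto_sum_nat_add (fun j => (1 / 4 : ℝ) ^ q j)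
  have hev1 : ∀ᶠ N : ℕ in Filter.atTop, ∑' k, (1 / 4 : ℝ) ^ q (k + N) < 1 / (8 * 4 ^ c) :=
    ht.eventually_lt_const (by positivity)
  have hH : Filter.Tendsto (fun N : ℕ => (1 / 2 : ℝ) ^ (N + c)) Filter.atTop (nhds 0) :=
    (tendsto_pow_atTop_nhds_zero_of_lt_one (by norm_num) (by norm_num)).comp
      (Filter.tendsto_add_atTop_nat c)
  have h2 : Filter.Tendsto (fun N : ℕ => 2 * ((1 / 2 : ℝ) ^ (N + c)) ^ 2 + (1 / 2) ^ (N + c) * G0)
      Filter.atTop (nhds 0) := by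
    have := ((hH.pow 2).const_mul 2).add (hH.mul_const G0)
    simpa using this
  have h3 : Filter.Tendsto (fun N : ℕ => 2 * (1 / 2 : ℝ) ^ (N + c)) Filter.atTop (nhds 0) := by
    have := hH.const_mul 2
    simpa using this
  obtain ⟨N, ⟨hN1, hN2⟩, hN3⟩ := ((hev1.and (h2.eventually_lt_const hρ)).and
    (h3.eventually_lt_const hρ)).exists
  have hsN : Summable (fun j => (1 / 4 : ℝ) ^ q (j + N)) :=
    (summable_nat_add_iff (f := fun j => (1 / 4 : ℝ) ^ q j) N).2 hsum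
  have hs2 : Summable (fun j => (1 / 4 : ℝ) ^ (q (j + N) - c)) :=
    Summable.of_nonneg_of_le (fun j => by positivity) (fun j => hle (j + N)) (hsN.mul_left _)
  refine ⟨N, hN2.le, hN3.le, hs2, ?_⟩
  have h4 : ∑' j, (1 / 4 : ℝ) ^ (q (j + N) - c) ≤ ∑' j, 4 ^ c * (1 / 4 : ℝ) ^ q (j + N) :=
    hs2.tsum_le_tsum (fun j => hle (j + N)) (hsN.mul_left _)
  rw [tsum_mul_left] at h4
  have h5 : (4 : ℝ) ^ c * ∑' k, (1 / 4 : ℝ) ^ q (k + N) ≤ 4 ^ c * (1 / (8 * 4 ^ c)) :=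
    mul_le_mul_of_nonneg_left hN1.le (by positivity)
  have h6 : (4 : ℝ) ^ c * (1 / (8 * 4 ^ c)) = 1 / 8 := by field_simp
  linarith

/-- the gap at large scales -/
theorem gap_large (f g F G : X →L[ℝ] ℝ) (z : X) {κ σ H τ : ℝ} (hκ : 0 < κ) (hH : 0 < H)
    (hQ : ∀ y : X, ‖y‖ ≤ 1 → f y + κ * (g y) ^ 2 ≤ 1)
    (hA : ∀ δ : ℝ, 0 < δ → ∃ x : X, ‖x‖ ≤ 1 ∧ 1 - δ < f x) (hz : ‖z‖ ≤ 1) (hσ : |σ| ≤ H)
    (hG : ‖G - g‖ ≤ 2 * H) (hF : ‖F - (f + σ • g)‖ ≤ 2 * H ^ 2)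
    (hFz : ∀ y : X, ‖y‖ ≤ 1 → F y ≤ F z) (hτ : (4 / κ + 24) * H ≤ τ) {y : X} (hy : ‖y‖ ≤ 1)
    (hyτ : τ ≤ |G (y - z)|) : F (y - z) ≤ -(κ / 8 * τ ^ 2) := by
  -- lower bound for `F z`
  obtain ⟨x, hx, hxf⟩ := hA (min κ 1 * H ^ 2) (by positivity)
  have hmin1 : min κ 1 * H ^ 2 ≤ κ * H ^ 2 :=
    mul_le_mul_of_nonneg_right (min_le_left _ _) (by positivity)
  have hmin2 : min κ 1 * H ^ 2 ≤ 1 * H ^ 2 :=
    mul_le_mul_of_nonneg_right (min_le_right _ _) (by positivity)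
  have hgx : |g x| ≤ H := by
    have h1 := hQ x hx
    have h2 : κ * (g x) ^ 2 ≤ κ * H ^ 2 := by linarith
    have h3 := le_of_mul_le_mul_left h2 hκ
    exact abs_le_of_sq_le_sq h3 hH.le
  have hFd : ∀ u : X, ‖u‖ ≤ 1 → |F u - (f u + σ * g u)| ≤ 2 * H ^ 2 := by
    intro u hu
    have h1 := abs_le_opNorm_ball (F - (f + σ • g)) hu
    simp only [_root_.sub_apply, _root_.add_apply, _root_.smul_apply,
      smul_eq_mul] at h1
    linarith
  have hσg : ∀ u : X, |σ * g u| ≤ H * |g u| := by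
    intro u
    rw [abs_mul]
    exact mul_le_mul_of_nonneg_right hσ (abs_nonneg _)
  have hFz1 : 1 - 4 * H ^ 2 ≤ F z := by
    have h1 := (abs_le.1 (hFd x hx)).1
    have h2 := (abs_le.1 (hσg x)).1
    have h3 := hFz x hx
    have h4 : H * |g x| ≤ H * H := mul_le_mul_of_nonneg_left hgx hH.le
    nlinarith
  have hmain : ∀ u : X, ‖u‖ ≤ 1 → F u - F z ≤ -(κ * (g u) ^ 2) + H * |g u| + 6 * H ^ 2 := by
    intro u hu
    have h1 := (abs_le.1 (hFd u hu)).2
    have h2 := (abs_le.1 (hσg u)).2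
    have h3 := hQ u hu
    linarith
  have hsqz : (g z) ^ 2 = |g z| ^ 2 := (sq_abs _).symm
  have hsqy : (g y) ^ 2 = |g y| ^ 2 := (sq_abs _).symm
  have hgz : |g z| ≤ (1 / κ + 6) * H := by
    by_contra hcon
    push Not at hcon
    have h1 := hmain z hz
    rw [hsqz] at h1
    have h2 : 0 ≤ |g z| := abs_nonneg _
    have h3 : κ * ((1 / κ + 6) * H) = (1 + 6 * κ) * H := by field_simp
    have h4 : κ * |g z| > (1 + 6 * κ) * H := by
      rw [← h3]
      exact mul_lt_mul_of_pos_left hcon hκ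
    have h5 : |g z| * (κ * |g z|) ≥ |g z| * ((1 + 6 * κ) * H) :=
      mul_le_mul_of_nonneg_left h4.le h2
    have h6 : 6 * κ * H * |g z| ≥ 6 * κ * H * ((1 / κ + 6) * H) :=
      mul_le_mul_of_nonneg_left hcon.le (by positivity)
    have h7 : 6 * κ * H * ((1 / κ + 6) * H) = 6 * H ^ 2 + 36 * κ * H ^ 2 := by
      field_simp
      ring
    have h8 : 0 < κ * H ^ 2 := by positivity
    nlinarith
  have hGd : ∀ u : X, ‖u‖ ≤ 1 → |G u - g u| ≤ 2 * H := by
    intro u hu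
    have h1 := abs_le_opNorm_ball (G - g) hu
    rw [_root_.sub_apply] at h1
    linarith
  have hgy : τ - (1 / κ + 10) * H ≤ |g y| := by
    have h1 := hGd y hy
    have h2 := hGd z hz
    have h3 : |G (y - z)| ≤ |G y - g y| + |g y| + |g z| + |G z - g z| := by
      rw [map_sub]
      have e : G y - G z = (G y - g y) + g y - g z - (G z - g z) := by ring
      rw [e]
      calc |(G y - g y) + g y - g z - (G z - g z)|
          ≤ |(G y - g y) + g y - g z| + |G z - g z| := abs_sub _ _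
        _ ≤ |(G y - g y) + g y| + |g z| + |G z - g z| := by gcongr; exact abs_sub _ _
        _ ≤ |G y - g y| + |g y| + |g z| + |G z - g z| := by gcongr; exact abs_add_le _ _
    have h4 : (1 / κ + 10) * H = (1 / κ + 6) * H + 4 * H := by ring
    linarith
  have hκi : 0 < 1 / κ := by positivity
  have e1 : (4 / κ + 24) * H = 2 * ((2 * (1 / κ) + 12) * H) := by ring
  have hp1 : 0 < 1 / κ * H := by positivity
  have h1 : τ / 2 ≤ |g y| := by nlinarith
  have h2 : (2 * (1 / κ) + 12) * H ≤ |g y| := by linarith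
  have hτ0 : 0 < τ := by
    have : 0 < (4 / κ + 24) * H := by positivity
    linarith
  -- final estimate
  have h3 : H * |g y| + 6 * H ^ 2 ≤ κ / 2 * |g y| ^ 2 := by
    have e2 : κ / 2 * ((2 * (1 / κ) + 12) * H) = (1 + 6 * κ) * H := by
      field_simp
      ring
    have h4 : κ / 2 * |g y| ≥ (1 + 6 * κ) * H := by
      rw [← e2]
      exact mul_le_mul_of_nonneg_left h2 (by positivity)
    have h5 : |g y| * (κ / 2 * |g y|) ≥ |g y| * ((1 + 6 * κ) * H) :=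
      mul_le_mul_of_nonneg_left h4 (abs_nonneg _)
    have h6 : 6 * κ * H * |g y| ≥ 6 * κ * H * ((2 * (1 / κ) + 12) * H) :=
      mul_le_mul_of_nonneg_left h2 (by positivity)
    have h7 : 6 * κ * H * ((2 * (1 / κ) + 12) * H) = 12 * H ^ 2 + 72 * κ * H ^ 2 := by
      field_simp
      ring
    have h8 : 0 < κ * H ^ 2 := by positivity
    have h9 : 0 < H ^ 2 := by positivity
    nlinarith
  have h4 := hmain y hy
  rw [hsqy] at h4
  rw [map_sub]
  have h5 : (τ / 2) ^ 2 ≤ |g y| ^ 2 := pow_le_pow_left₀ (by positivity) h1 2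
  have h6 : κ / 2 * (τ / 2) ^ 2 ≤ κ / 2 * |g y| ^ 2 := mul_le_mul_of_nonneg_left h5 (by positivity)
  have h7 : κ / 2 * (τ / 2) ^ 2 = κ / 8 * τ ^ 2 := by ring
  linarith

theorem gSD (hStep : GStep.{u}) (hSel : GSel.{u}) (hLim : GLim.{u}) (hGeo : GGeo.{u}) :
    GSD.{u} := by
  intro X _ _ _ f g κ ρ b q hκ hρ hQ hA hsum hqb
  have hκi : 0 < 1 / κ := by positivity
  set Λ : ℝ := 2 * (1 / κ + 1) with hΛ
  have hΛ0 : 0 < Λ := by positivity
  obtain ⟨c, hc⟩ := pow_unbounded_of_one_lt (32 * (Λ + 12) + (4 / κ + 24)) (one_lt_two (α := ℝ))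
  have hc1 : 32 * (Λ + 12) ≤ (2 : ℝ) ^ c := by
    have : 0 < 4 / κ + 24 := by positivity
    linarith
  have hc2 : 4 / κ + 24 ≤ (2 : ℝ) ^ c := by
    have : 0 < 32 * (Λ + 12) := by positivity
    linarith
  obtain ⟨N, hN1, hN2, hN3, hN4⟩ := exists_consts ρ ‖g‖ q c hρ hsum
  set H : ℝ := (1 / 2 : ℝ) ^ (N + c) with hHdef
  have hH : 0 < H := by positivity
  obtain ⟨x0, hx0, hx0f⟩ := hA (H ^ 2 / (4 * κ)) (by positivity)
  let S := {s : St X // ‖s.x‖ ≤ 1}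
  let al : ℕ → S → ℝ := fun k s => 2 * en s.1 (H / 2 ^ k) / (H / 2 ^ k) ^ 2
  let d : S → S → ℝ := fun s s' => ‖s'.1.x - s.1.x‖
  let R : ℕ → Fin 3 → S → S → Prop := fun k i s s' =>
    s'.1.m = s.1.m + (((i : ℕ) : ℝ) - 1) * (H / 2 ^ k / 2) ∧ ‖s'.1.g - s.1.g‖ ≤ H / 2 ^ k ∧
      ‖(s'.1.f + s'.1.m • s'.1.g) - (s.1.f + s'.1.m • s.1.g)‖ ≤ (H / 2 ^ k) ^ 2 / 2
  let s0 : S := ⟨⟨f, g, x0, 0⟩, hx0⟩
  have hal0 : al 0 s0 ≤ 1 / κ := by
    have h1 := norm_pair_le f g hκ hQ H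
    have h2 := norm_pair_le f g hκ hQ (-H)
    have h3 : en s0.1 H ≤ H ^ 2 / (2 * κ) := by
      change (‖f + (0 + H) • g‖ + ‖f + (0 - H) • g‖) / 2 - (f + (0 : ℝ) • g) x0 ≤ _
      rw [zero_add, zero_sub, zero_smul, add_zero]
      have e1 : (-H) ^ 2 = H ^ 2 := by ring
      rw [e1] at h2
      have e2 : H ^ 2 / (2 * κ) = H ^ 2 / (4 * κ) + H ^ 2 / (4 * κ) := by
        field_simp
        ring
      linarith
    change 2 * en s0.1 (H / 2 ^ 0) / (H / 2 ^ 0) ^ 2 ≤ 1 / κ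
    rw [pow_zero, div_one, div_le_iff₀ (by positivity)]
    have e3 : 1 / κ * H ^ 2 = 2 * (H ^ 2 / (2 * κ)) := by
      field_simp
    rw [e3]
    linarith
  obtain ⟨st, w, hst0, hR, hal, hd, hwin⟩ := hSel S al R d s0 (fun j => q (j + N) - c) (by
      intro k s
      have := en_nonneg s.1 (H / 2 ^ k) s.2
      change 0 ≤ 2 * en s.1 (H / 2 ^ k) / (H / 2 ^ k) ^ 2
      positivity) (by
      intro s s'
      exact norm_nonneg _) (by
      intro k s ε hε
      obtain ⟨A, hA1, hA2⟩ := hStep X s.1 (H / 2 ^ k) ε s.2 (by positivity) hε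
      refine ⟨A, hA1, fun i => ?_⟩
      obtain ⟨S', h1, h2, h3, h4, h5⟩ := hA2 i
      refine ⟨⟨S', h1⟩, ⟨h2, h3, h4⟩, ?_⟩
      change 2 * en S' (H / 2 ^ (k + 1)) / (H / 2 ^ (k + 1)) ^ 2 + ‖S'.x - s.1.x‖ ≤ A i + ε
      have e : H / 2 ^ (k + 1) = H / 2 ^ k / 2 := by
        rw [pow_succ]
        field_simp
      rw [e]
      exact h5) hN3 hN4
  have hbd : 2 * (al 0 s0 + 1) ≤ Λ := by rw [hΛ]; linarith
  have hpath : Path X (fun k => (st k).1) w H Λ :=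
    { H0 := hH
      L0 := hΛ0.le
      hx := fun k => (st k).2
      hm := fun k => (hR k).1
      hg := fun k => (hR k).2.1
      hf := fun k => (hR k).2.2
      he := fun k => (hal k).trans hbd
      hd := fun k => (hd k).trans hbd }
  obtain ⟨F, G, z, σ, hz, hσ, hG, hF, hFz, hV⟩ := hLim X (fun k => (st k).1) w H Λ hpath
  have hst0' : (st 0).1 = ⟨f, g, x0, 0⟩ := by rw [hst0]
  have hσ0 : |σ| ≤ H := by
    have := hσ 0
    simp only [hst0', sub_zero, pow_zero, div_one] at this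
    exact this
  have hG0 : ‖G - g‖ ≤ 2 * H := by
    have := hG 0
    simp only [hst0', pow_zero, div_one] at this
    exact this
  have hF0 : ‖F - (f + σ • g)‖ ≤ 2 * H ^ 2 := by
    have := hF 0
    simp only [hst0', pow_zero, div_one] at this
    exact this
  refine ⟨F, G, z, hz, ?_, hG0.trans hN2, hFz, ?_⟩
  · have h1 : F - f = (F - (f + σ • g)) + σ • g := by abel
    rw [h1]
    calc ‖(F - (f + σ • g)) + σ • g‖ ≤ ‖F - (f + σ • g)‖ + ‖σ • g‖ := norm_add_le _ _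
      _ ≤ 2 * H ^ 2 + H * ‖g‖ := by
          rw [norm_smul, Real.norm_eq_abs]
          exact add_le_add hF0 (mul_le_mul_of_nonneg_right hσ0 (norm_nonneg _))
      _ ≤ ρ := hN1
  · intro j hj y hy hτ1 hτ2
    rcases Nat.lt_or_ge j N with hjN | hjN
    · -- large scale
      have h1 : (4 / κ + 24) * H ≤ (1 / 2 : ℝ) ^ (j + 1) := by
        have h2 : (1 / 2 : ℝ) ^ N ≤ (1 / 2 : ℝ) ^ (j + 1) :=
          pow_le_pow_of_le_one (by norm_num) (by norm_num) hjN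
        have h3 : (2 : ℝ) ^ c * H = (1 / 2) ^ N := by
          rw [hHdef, pow_add]
          have : (1 / 2 : ℝ) ^ c * 2 ^ c = 1 := by rw [← mul_pow]; norm_num
          calc (2 : ℝ) ^ c * ((1 / 2) ^ N * (1 / 2) ^ c) = (1 / 2) ^ N * ((1 / 2) ^ c * 2 ^ c) := by
                ring
            _ = _ := by rw [this, mul_one]
        have h4 : (4 / κ + 24) * H ≤ 2 ^ c * H := mul_le_mul_of_nonneg_right hc2 hH.le
        linarith
      have h5 := gap_large f g F G z hκ hH hQ hA hz hσ0 hG0 hF0 hFz h1 hy hτ1.le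
      have h6 : ((1 / 2 : ℝ) ^ (j + 1)) ^ 2 = (1 / 4) ^ (j + 1) := by
        rw [← pow_mul, mul_comm, pow_mul]
        norm_num
      rw [h6] at h5
      have h7 : (1 / 2 : ℝ) ^ q j * (1 / 4) ^ (j + 1) ≤ κ / 8 * (1 / 4) ^ (j + 1) :=
        mul_le_mul_of_nonneg_right (hqb j hj) (by positivity)
      linarith
    · -- small scale
      obtain ⟨i, rfl⟩ : ∃ i, j = i + N := ⟨j - N, by omega⟩
      obtain ⟨hw1, hw2⟩ := hwin i
      have hqc : c < q (i + N) := by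
        obtain ⟨k, h1, h2, -⟩ := hw1
        omega
      have hgeo := hGeo X F G z σ (Λ + 12) H (fun k => (st k).1.m) w i (q (i + N) - c) hH
        (by positivity) hz hFz (fun k => (hR k).1) hσ hV hw1 hw2
      set t : ℝ := H / 2 ^ (i + (q (i + N) - c)) with ht
      have htp : 0 < t := by positivity
      obtain ⟨hg1, hg2⟩ := hgeo t htp le_rfl
      have e1 : H / 2 ^ i = (1 / 2) ^ c * (1 / 2) ^ (i + N) := by
        rw [hHdef, div_eq_iff (by positivity)]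
        have : (1 / 2 : ℝ) ^ (i + N) = (1 / 2) ^ i * (1 / 2) ^ N := pow_add _ _ _
        rw [this, pow_add]
        have h2 : (1 / 2 : ℝ) ^ i * 2 ^ i = 1 := by rw [← mul_pow]; norm_num
        calc (1 / 2 : ℝ) ^ N * (1 / 2) ^ c = (1 / 2) ^ N * (1 / 2) ^ c * ((1 / 2 : ℝ) ^ i * 2 ^ i) := by
              rw [h2, mul_one]
          _ = _ := by ring
      have e2 : t = (1 / 2) ^ (i + N) * (1 / 2) ^ q (i + N) := by
        rw [ht, hHdef, div_eq_iff (by positivity), ← pow_add]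
        have h2 : (1 / 2 : ℝ) ^ (i + (q (i + N) - c)) * 2 ^ (i + (q (i + N) - c)) = 1 := by
          rw [← mul_pow]; norm_num
        have h3 : i + N + q (i + N) = (N + c) + (i + (q (i + N) - c)) := by omega
        rw [h3, pow_add (1 / 2 : ℝ) (N + c) (i + (q (i + N) - c)), mul_assoc, h2, mul_one]
      have h8C : 8 * (Λ + 12) * (H / 2 ^ i) * t ≤ 1 / 4 * (1 / 2) ^ (i + N) * t := by
        apply mul_le_mul_of_nonneg_right _ htp.le
        rw [e1]
        have h2 : 32 * (Λ + 12) * (1 / 2) ^ c ≤ 2 ^ c * (1 / 2 : ℝ) ^ c :=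
          mul_le_mul_of_nonneg_right hc1 (by positivity)
        have h3 : (2 : ℝ) ^ c * (1 / 2 : ℝ) ^ c = 1 := by rw [← mul_pow]; norm_num
        have h4 : 8 * (Λ + 12) * (1 / 2) ^ c ≤ 1 / 4 := by linarith
        have h5 := mul_le_mul_of_nonneg_right h4 (by positivity : (0 : ℝ) ≤ (1 / 2) ^ (i + N))
        linarith
      have hτ3 : t * ((1 / 2) * (1 / 2) ^ (i + N)) ≤ t * |G (y - z)| := by
        apply mul_le_mul_of_nonneg_left _ htp.le
        rw [pow_succ] at hτ1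
        linarith
      have hmain : F (y - z) ≤ 1 / 4 * (1 / 2) ^ (i + N) * t - t * |G (y - z)| := by
        rcases le_total 0 (G (y - z)) with hs | hs
        · rw [abs_of_nonneg hs]
          have h2 := le_opNorm_ball (F + t • G) hy
          simp only [_root_.add_apply, _root_.smul_apply,
            smul_eq_mul, map_sub] at *
          linarith
        · rw [abs_of_nonpos hs]
          have h2 := le_opNorm_ball (F - t • G) hy
          simp only [_root_.sub_apply, _root_.smul_apply,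
            smul_eq_mul, map_sub] at *
          linarith
      have e3 : (1 / 2 : ℝ) ^ q (i + N) * (1 / 4) ^ (i + N + 1) =
          1 / 4 * (1 / 2) ^ (i + N) * t := by
        rw [e2]
        have h2 : (1 / 4 : ℝ) ^ (i + N + 1) = 1 / 4 * ((1 / 2) ^ (i + N) * (1 / 2) ^ (i + N)) := by
          rw [pow_succ, ← mul_pow]
          norm_num
          ring
        rw [h2]
        ring
      rw [e3]
      linarith

end Pool.Agent.Helper36.Sq
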